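import Pool.Agent.Helper98.MFH.W
import Mathlib.GroupTheory.ResiduallyFinite

/-!
# MFH: the class of MF groups is closed under doubles and HNN extensions over arbitrary subgroups

The theorems of this file in elementary terms.
-/

set_option autoImplicit false

namespace Pool.Agent.Helper98.MFH

open scoped Matrix.Norms.L2Operator

/-- the operator norm of a square matrix -/
noncomputable def opNorm {n : ℕ} (X : Matrix (Fin n) (Fin n) ℂ) : ℝ :=
  ‖Matrix.toEuclideanCLM (n := Fin n) (𝕜 := ℂ) X‖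

theorem opNorm_eq {n : ℕ} (X : Matrix (Fin n) (Fin n) ℂ) : opNorm X = ‖X‖ :=
  (Matrix.cstar_norm_def X).symm

/-- MF groups: approximable by unitary matrices in the operator norm -/
def MF (G : Type) [Group G] : Prop :=
  ∀ (A : Finset G) (ε : ℝ), 0 < ε → ∃ (n : ℕ) (φ : G → Matrix.unitaryGroup (Fin n) ℂ), φ 1 = 1 ∧
    (∀ a ∈ A, ∀ b ∈ A, opNorm ((φ (a * b)).1 - (φ a).1 * (φ b).1) < ε) ∧
      ∀ a ∈ A, a ≠ 1 → 1 ≤ opNorm ((φ a).1 - 1)

theorem mf_iff (G : Type) [Group G] : MF G ↔ IsMF G := by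
  unfold MF IsMF ds
  simp only [opNorm_eq]
  rfl

theorem MF.hnn {Q : Type} [Group Q] (K : Subgroup Q) (h : MF Q) :
    MF (HNNExtension Q K K (MulEquiv.refl K)) :=
  (mf_iff _).2 (mf_hnn K ((mf_iff Q).1 h))

theorem MF.double {Q : Type} [Group Q] (K : Subgroup Q) (h : MF Q) :
    MF (Monoid.PushoutI (fun _ : Fin 2 => K.subtype)) :=
  (mf_iff _).2 (mf_double K ((mf_iff Q).1 h))

theorem MF.wreath {Q : Type} [Group Q] (K : Subgroup Q) (h : MF Q) (α : Type) :
    MF (Pool.Agent.Helper3.CK.PWr (FreeGroup α) K) :=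
  (mf_iff _).2 (mf_wreath K ((mf_iff Q).1 h) α)

theorem rFin_of {Q : Type} [Group Q] (h : Group.ResiduallyFinite Q) : RFin Q := by
  intro q hq
  obtain ⟨H, hH⟩ := Group.exists_finiteIndexNormalSubgroup_notMem q hq
  refine ⟨Q ⧸ H.toSubgroup, inferInstance, ?_, QuotientGroup.mk' H.toSubgroup, ?_⟩
  · exact Subgroup.finite_quotient_of_finiteIndex
  · intro h1
    exact hH ((QuotientGroup.eq_one_iff q).1 h1)

theorem MF.of_residuallyFinite {Q : Type} [Group Q] (h : Group.ResiduallyFinite Q) : MF Q :=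
  (mf_iff _).2 (mf_rf (rFin_of h))

end Pool.Agent.Helper98.MFH
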