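import Pool.Agent.Helper98.MFH.Op

/-!
# MFH: block diagonal unitaries over a finite group, and translations
-/

set_option autoImplicit false
set_option linter.unusedSectionVars false

namespace Pool.Agent.Helper98.MFH

open Matrix Finset
open scoped Matrix.Norms.L2Operator

noncomputable section

variable {β P : Type} [Fintype β] [DecidableEq β] [Fintype P] [DecidableEq P]

theorem bd_mulVec (M : P → Matrix β β ℂ) (v : β × P → ℂ) (b : β) (p : P) :
    (blockDiagonal M *ᵥ v) (b, p) = (M p *ᵥ fun b' => v (b', p)) b := by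
  rw [mulVec, dotProduct, mulVec, dotProduct, Fintype.sum_prod_type]
  refine sum_congr rfl fun b' _ => ?_
  rw [Finset.sum_eq_single p]
  · rw [blockDiagonal_apply_eq]
  · intro p' _ hp
    rw [blockDiagonal_apply_ne _ _ _ hp.symm, zero_mul]
  · simp

theorem nsq_prod (v : β × P → ℂ) : nsq v = ∑ p, nsq fun b => v (b, p) := by
  rw [nsq, Fintype.sum_prod_type_right]
  rfl

theorem norm_bd_le {M : P → Matrix β β ℂ} {c : ℝ} (hc : 0 ≤ c) (h : ∀ p, ‖M p‖ ≤ c) :
    ‖blockDiagonal M‖ ≤ c := by
  refine norm_le_of hc fun v => ?_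
  rw [nsq_prod, nsq_prod v, mul_sum]
  refine sum_le_sum fun p _ => ?_
  have h1 : (fun b => (blockDiagonal M *ᵥ v) (b, p)) = M p *ᵥ fun b' => v (b', p) := by
    funext b
    exact bd_mulVec M v b p
  rw [h1]
  refine (nsq_mulVec_le _ _).trans ?_
  exact mul_le_mul_of_nonneg_right (pow_le_pow_left₀ (norm_nonneg _) (h p) 2) (nsq_nonneg _)

theorem norm_le_bd (M : P → Matrix β β ℂ) (p : P) : ‖M p‖ ≤ ‖blockDiagonal M‖ := by
  refine norm_le_of (norm_nonneg _) fun v => ?_
  have h := nsq_mulVec_le (blockDiagonal M) (fun x : β × P => if x.2 = p then v x.1 else 0)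
  have e1 : nsq (fun x : β × P => if x.2 = p then v x.1 else 0) = nsq v := by
    rw [nsq_prod, Finset.sum_eq_single p]
    · simp
    · intro q _ hq
      simp [hq, nsq]
    · simp
  rw [e1] at h
  refine le_trans ?_ h
  rw [nsq_prod]
  have e2 : nsq (M p *ᵥ v) = nsq fun b => (blockDiagonal M *ᵥ
      (fun x : β × P => if x.2 = p then v x.1 else 0)) (b, p) := by
    congr 1
    funext b
    rw [bd_mulVec]
    simp
  rw [e2]
  exact Finset.single_le_sum (f := fun q => nsq fun b => (blockDiagonal M *ᵥ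
      (fun x : β × P => if x.2 = p then v x.1 else 0)) (b, q))
    (fun q _ => nsq_nonneg _) (mem_univ p)

/-- block diagonal unitaries -/
def BD : (P → unitaryGroup β ℂ) →* unitaryGroup (β × P) ℂ where
  toFun F := ⟨blockDiagonal fun p => (F p).1, by
    rw [mem_unitaryGroup_iff, star_eq_conjTranspose, blockDiagonal_conjTranspose,
      ← blockDiagonal_mul, ← blockDiagonal_one]
    congr 1
    funext p
    exact mem_unitaryGroup_iff.1 (F p).2⟩
  map_one' := Subtype.ext blockDiagonal_one
  map_mul' F F' := Subtype.ext (by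
    rw [UnitaryGroup.mul_val]
    exact blockDiagonal_mul (fun p => (F p).1) fun p => (F' p).1)

theorem ds_BD {F F' : P → unitaryGroup β ℂ} {c : ℝ} (hc : 0 ≤ c)
    (h : ∀ p, ds (F p) (F' p) ≤ c) : ds (BD F) (BD F') ≤ c := by
  unfold ds
  have : (BD F).1 - (BD F').1 = blockDiagonal fun p => (F p).1 - (F' p).1 :=
    (blockDiagonal_sub (fun p => (F p).1) fun p => (F' p).1).symm
  rw [this]
  exact norm_bd_le hc h

theorem le_ds_BD (F F' : P → unitaryGroup β ℂ) (p : P) : ds (F p) (F' p) ≤ ds (BD F) (BD F') := by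
  unfold ds
  have : (BD F).1 - (BD F').1 = blockDiagonal fun p => (F p).1 - (F' p).1 :=
    (blockDiagonal_sub (fun p => (F p).1) fun p => (F' p).1).symm
  rw [this]
  exact norm_le_bd (fun p => (F p).1 - (F' p).1) p

/-! ### translations -/

variable [Group P]

/-- left translation on the second coordinate -/
def tr (β : Type) {P : Type} [Group P] : P →* Equiv.Perm (β × P) where
  toFun p := ⟨fun x => (x.1, p * x.2), fun x => (x.1, p⁻¹ * x.2), fun x => by simp,
    fun x => by simp⟩
  map_one' := by ext x <;> simp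
  map_mul' p q := by ext x <;> simp [mul_assoc]

@[simp] theorem tr_apply (p : P) (x : β × P) : tr β p x = (x.1, p * x.2) := rfl

/-- the left regular representation, amplified -/
def Lam (β : Type) {P : Type} [Fintype β] [DecidableEq β] [Fintype P] [DecidableEq P] [Group P] :
    P →* unitaryGroup (β × P) ℂ := PM.comp (tr β)

theorem pm_conj {ι : Type} [Fintype ι] [DecidableEq ι] (σ : Equiv.Perm ι) (M : Matrix ι ι ℂ)
    (a b : ι) : (pm σ * M) (σ a) b = M a b := by
  rw [Matrix.mul_apply, Finset.sum_eq_single a]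
  · simp [pm]
  · intro c _ hc
    rw [pm, if_neg, zero_mul]
    intro h
    exact hc (σ.injective h).symm
  · simp

theorem mul_pm {ι : Type} [Fintype ι] [DecidableEq ι] (σ : Equiv.Perm ι) (M : Matrix ι ι ℂ)
    (a b : ι) : (M * pm σ) a b = M a (σ b) := by
  rw [Matrix.mul_apply, Finset.sum_eq_single (σ b)]
  · simp [pm]
  · intro c _ hc
    rw [pm, if_neg hc, mul_zero]
  · simp

theorem Lam_mul_BD (p : P) (F : P → unitaryGroup β ℂ) :
    Lam β p * BD F = BD (fun y => F (p⁻¹ * y)) * Lam β p := by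
  apply Subtype.ext
  rw [UnitaryGroup.mul_val, UnitaryGroup.mul_val]
  ext x y
  obtain ⟨a, rfl⟩ := (tr β p).surjective x
  have h1 : ((Lam β p).1 * (BD F).1) (tr β p a) y = (BD F).1 a y := pm_conj (tr β p) (BD F).1 a y
  have h2 : ((BD fun y => F (p⁻¹ * y)).1 * (Lam β p).1) (tr β p a) y =
      (BD fun y => F (p⁻¹ * y)).1 (tr β p a) (tr β p y) := mul_pm (tr β p) _ _ _
  rw [h1, h2]
  change blockDiagonal (fun y => (F y).1) a y =
    blockDiagonal (fun y => (F (p⁻¹ * y)).1) (tr β p a) (tr β p y)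
  rw [blockDiagonal_apply, blockDiagonal_apply]
  simp only [tr_apply, mul_right_inj, inv_mul_cancel_left]

theorem one_le_ds_Lam [Nonempty β] (p : P) (hp : p ≠ 1) (F : P → unitaryGroup β ℂ)
    (hF : F = 1) : 1 ≤ ds (BD F * Lam β p) 1 := by
  subst hF
  rw [map_one, one_mul]
  obtain ⟨b⟩ := (inferInstance : Nonempty β)
  refine pm_sub_one (tr β p) (b, 1) ?_
  intro h
  apply hp
  have := congrArg Prod.snd h
  simpa using this

end

end Pool.Agent.Helper98.MFH
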