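import Pool.Agent.Helper98.MFH.Op

/-!
# MFH: permutation matrices are joined to the identity by chains with small steps
-/

set_option autoImplicit false
set_option linter.unusedSectionVars false

namespace Pool.Agent.Helper98.MFH

open Matrix Finset
open scoped Matrix.Norms.L2Operator

noncomputable section

theorem zchain (θ ε : ℝ) (hε : 0 < ε) : ∃ (N : ℕ) (z : ℕ → ℂ), z 0 = 1 ∧
    (∀ i, N ≤ i → z i = Complex.exp (Complex.I * θ)) ∧ (∀ i, z i * star (z i) = 1) ∧
      ∀ i, ‖z i - z (i + 1)‖ ≤ ε := by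
  obtain ⟨N, hN⟩ := exists_nat_gt (|θ| / ε)
  have hN0 : (0 : ℝ) < N := lt_of_le_of_lt (by positivity) hN
  have hN1 : 0 < N := by exact_mod_cast hN0
  let t : ℕ → ℝ := fun i => θ * (min i N : ℕ) / N
  refine ⟨N, fun i => Complex.exp (Complex.I * t i), ?_, ?_, ?_, ?_⟩
  · simp [t]
  · intro i hi
    have : t i = θ := by
      simp only [t, min_eq_right hi]
      field_simp
    beta_reduce
    rw [this]
  · intro i
    have : star (Complex.exp (Complex.I * t i)) = Complex.exp (-(Complex.I * t i)) := by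
      rw [Complex.star_def, ← Complex.exp_conj]
      simp
    rw [this, ← Complex.exp_add]
    simp
  · intro i
    have h1 : Complex.exp (Complex.I * t i) - Complex.exp (Complex.I * t (i + 1)) =
        - (Complex.exp (Complex.I * t i) *
          (Complex.exp (Complex.I * ((t (i + 1) - t i : ℝ) : ℂ)) - 1)) := by
      have : Complex.exp (Complex.I * t (i + 1)) = Complex.exp (Complex.I * t i) *
          Complex.exp (Complex.I * ((t (i + 1) - t i : ℝ) : ℂ)) := by
        rw [← Complex.exp_add]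
        congr 1
        push_cast
        ring
      rw [this]
      ring
    rw [h1, norm_neg, norm_mul, Complex.norm_exp_I_mul_ofReal, one_mul]
    refine Real.norm_exp_I_mul_ofReal_sub_one_le.trans ?_
    have h2 : t (i + 1) - t i = θ * (((min (i + 1) N : ℕ) : ℝ) - (min i N : ℕ)) / N := by
      simp only [t]; ring
    rw [h2, Real.norm_eq_abs, abs_div, abs_mul, abs_of_pos hN0, div_le_iff₀ hN0]
    have h3 : |((min (i + 1) N : ℕ) : ℝ) - (min i N : ℕ)| ≤ 1 := by
      rcases Nat.lt_or_ge i N with h | h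
      · rw [min_eq_left (by omega : i + 1 ≤ N), min_eq_left h.le]
        push_cast
        simp
      · rw [min_eq_right (by omega : N ≤ i + 1), min_eq_right h]
        simp
    have h4 : |θ| < N * ε := by rwa [div_lt_iff₀ hε] at hN
    calc |θ| * |((min (i + 1) N : ℕ) : ℝ) - (min i N : ℕ)| ≤ |θ| * 1 :=
          mul_le_mul_of_nonneg_left h3 (abs_nonneg _)
      _ ≤ ε * N := by rw [mul_one, mul_comm]; exact h4.le

variable {ι : Type} [Fintype ι] [DecidableEq ι]

/-- `u` is joined to `1` by chains with small steps -/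
def Chn (u : unitaryGroup ι ℂ) : Prop :=
  ∀ ε : ℝ, 0 < ε → ∃ (N : ℕ) (v : ℕ → unitaryGroup ι ℂ), v 0 = 1 ∧ (∀ i, N ≤ i → v i = u) ∧
    ∀ i, ds (v i) (v (i + 1)) ≤ ε

theorem chn_one : Chn (1 : unitaryGroup ι ℂ) := fun _ hε =>
  ⟨0, fun _ => 1, rfl, fun _ _ => rfl, fun _ => (ds_self _).trans_le hε.le⟩

theorem Chn.mul {u v : unitaryGroup ι ℂ} (hu : Chn u) (hv : Chn v) : Chn (u * v) := by
  intro ε hε
  obtain ⟨N, x, h1, h2, h3⟩ := hu (ε / 2) (half_pos hε)
  obtain ⟨M, y, h1', h2', h3'⟩ := hv (ε / 2) (half_pos hε)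
  refine ⟨max N M, fun i => x i * y i, by beta_reduce; rw [h1, h1', one_mul], fun i hi => ?_,
    fun i => ?_⟩
  · beta_reduce
    rw [h2 i ((le_max_left _ _).trans hi), h2' i ((le_max_right _ _).trans hi)]
  · refine (ds_mul _ _ _ _).trans ?_
    linarith [h3 i, h3' i]

theorem chn_invol (σ : Equiv.Perm ι) (hσ : σ * σ = 1) : Chn (PM σ) := by
  intro ε hε
  obtain ⟨N, z, h1, h2, h3, h4⟩ := zchain Real.pi ε hε
  have hz : ∀ i, N ≤ i → z i = -1 := by
    intro i hi
    rw [h2 i hi, mul_comm, Complex.exp_pi_mul_I]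
  have hP : pm σ * pm σ = 1 := by rw [pm_mul, hσ, pm_one]
  have hS : (pm σ)ᴴ = pm σ := by
    rw [pm_star]
    congr 1
    exact inv_eq_of_mul_eq_one_left hσ
  let w : ℂ → Matrix ι ι ℂ := fun z => ((1 + z) / 2) • (1 : Matrix ι ι ℂ) + ((1 - z) / 2) • pm σ
  have hw : ∀ z : ℂ, z * star z = 1 → w z ∈ unitaryGroup ι ℂ := by
    intro z hz
    rw [mem_unitaryGroup_iff, star_eq_conjTranspose]
    have e1 : (w z)ᴴ = ((1 + star z) / 2) • (1 : Matrix ι ι ℂ) + ((1 - star z) / 2) • pm σ := by
      simp only [w, conjTranspose_add, conjTranspose_smul, conjTranspose_one, hS]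
      congr 2 <;> simp
    rw [e1]
    simp only [w, Matrix.add_mul, Matrix.mul_add, Matrix.smul_mul, Matrix.mul_smul, Matrix.one_mul,
      Matrix.mul_one, hP]
    have e4 : ∀ a b c d : ℂ, a • (c • (1 : Matrix ι ι ℂ) + d • pm σ) +
        b • (c • pm σ + d • 1) = (a * c + b * d) • (1 : Matrix ι ι ℂ) +
          (a * d + b * c) • pm σ := by
      intro a b c d
      rw [smul_add, smul_add, smul_smul, smul_smul, smul_smul, smul_smul, add_smul, add_smul]
      abel
    have e2 : (1 + star z) / 2 * ((1 + z) / 2) + (1 - star z) / 2 * ((1 - z) / 2) = 1 := by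
      linear_combination hz / 2
    have e3 : (1 + star z) / 2 * ((1 - z) / 2) + (1 - star z) / 2 * ((1 + z) / 2) = 0 := by
      linear_combination -hz / 2
    rw [e4, e2, e3, one_smul, zero_smul, add_zero]
  refine ⟨N, fun i => ⟨w (z i), hw _ (h3 i)⟩, ?_, ?_, ?_⟩
  · apply Subtype.ext
    change w (z 0) = 1
    rw [h1]
    simp only [w]
    norm_num
  · intro i hi
    apply Subtype.ext
    change w (z i) = pm σ
    rw [hz i hi]
    simp only [w]
    norm_num
  · intro i
    unfold ds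
    change ‖w (z i) - w (z (i + 1))‖ ≤ ε
    have e1 : w (z i) - w (z (i + 1)) = ((z i - z (i + 1)) / 2) • (1 - pm σ) := by
      simp only [w]
      rw [smul_sub, add_sub_add_comm, ← sub_smul, ← sub_smul, sub_eq_add_neg _ (_ • pm σ),
        ← neg_smul]
      congr 2 <;> ring
    rw [e1, norm_smul, norm_div]
    have e2 : ‖(1 : Matrix ι ι ℂ) - pm σ‖ ≤ 2 := by
      refine (norm_sub_le _ _).trans ?_
      have h5 := norm_unitary_le (1 : unitaryGroup ι ℂ)
      have h6 := norm_unitary_le (PM σ)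
      have h7 : ‖(1 : Matrix ι ι ℂ)‖ ≤ 1 := h5
      have h8 : ‖pm σ‖ ≤ 1 := h6
      linarith
    have e3 : ‖(2 : ℂ)‖ = 2 := by norm_num
    rw [e3]
    have h5 := h4 i
    have h6 := norm_nonneg (z i - z (i + 1))
    calc ‖z i - z (i + 1)‖ / 2 * ‖(1 : Matrix ι ι ℂ) - pm σ‖ ≤ ‖z i - z (i + 1)‖ / 2 * 2 :=
          mul_le_mul_of_nonneg_left e2 (by positivity)
      _ ≤ ε := by linarith

theorem chn_perm (σ : Equiv.Perm ι) : Chn (PM σ) := by
  refine Equiv.Perm.swap_induction_on σ ?_ fun f x y _ hf => ?_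
  · rw [map_one]
    exact chn_one
  · rw [map_mul]
    exact (chn_invol _ (Equiv.swap_mul_self x y)).mul hf

end

end Pool.Agent.Helper98.MFH
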