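import Pool.Agent.Helper98.MFH.MF

/-!
# MFH: slowly varying height functions on finite quotients
-/

set_option autoImplicit false
set_option linter.unusedSectionVars false

namespace Pool.Agent.Helper98.MFH

open Finset
open scoped Pointwise

noncomputable section

theorem count_le (N : ℕ) (a b : ℕ → Prop) [DecidablePred a] [DecidablePred b]
    (h : ∀ i, a i → b (i + 1)) : #{i ∈ range N | a i} ≤ #{i ∈ range N | b i} + 1 := by
  have h1 : #{i ∈ range N | a i} ≤ #(insert N {i ∈ range N | b i}) := by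
    refine Finset.card_le_card_of_injOn (fun i => i + 1) ?_ fun i _ j _ hij => ?_
    · intro i hi
      rw [mem_coe, mem_filter, mem_range] at hi
      rw [mem_coe, mem_insert, mem_filter, mem_range]
      rcases Nat.lt_or_ge (i + 1) N with h2 | h2
      · exact Or.inr ⟨h2, h i hi.2⟩
      · exact Or.inl (le_antisymm hi.1 h2)
    · exact Nat.succ_injective hij
  exact h1.trans (card_insert_le _ _)

theorem heights {Q : Type} [Group Q] (hQ : RFin Q) (K : Subgroup Q) (S0 : Finset Q)
    (hS0 : ∀ s ∈ S0, s ∈ K) {α : Type} (C : Finset α) (p : α → Q)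
    (hp : ∀ c ∈ C, ∀ c' ∈ C, c ≠ c' → p c' * (p c)⁻¹ ∉ K) (N : ℕ) :
    ∃ (P : Type) (_ : Group P) (_ : Finite P) (π : Q →* P) (h : α → P → ℕ),
      (∀ c, h c (π (p c)) = N) ∧ (∀ c ∈ C, ∀ c' ∈ C, c ≠ c' → h c (π (p c')) = 0) ∧
      ∀ c, ∀ s ∈ S0, ∀ y, h c y ≤ h c ((π s)⁻¹ * y) + 1 ∧ h c ((π s)⁻¹ * y) ≤ h c y + 1 := by
  classical
  set S : Finset Q := insert 1 (S0 ∪ S0.image fun s => s⁻¹) with hS
  have hSK : ∀ s ∈ S, s ∈ K := by
    intro s hs
    rw [hS, mem_insert, mem_union, mem_image] at hs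
    rcases hs with rfl | hs | ⟨t, ht, rfl⟩
    · exact K.one_mem
    · exact hS0 s hs
    · exact K.inv_mem (hS0 t ht)
  have hpow : ∀ i, ∀ s ∈ S ^ i, s ∈ K := by
    intro i
    induction i with
    | zero =>
      intro s hs
      rw [pow_zero, mem_one] at hs
      rw [hs]
      exact K.one_mem
    | succ i ih =>
      intro s hs
      rw [pow_succ', mem_mul] at hs
      obtain ⟨a, ha, b, hb, rfl⟩ := hs
      exact K.mul_mem (hSK a ha) (ih b hb)
  have h1S : (1 : Q) ∈ S := mem_insert_self _ _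
  obtain ⟨P, iP, fP, π, hπ⟩ := hQ.finset (((C ×ˢ C) ×ˢ (range N).biUnion fun i => S ^ i).image
    fun x => (x.2 * p x.1.1)⁻¹ * p x.1.2)
  refine ⟨P, iP, fP, π, fun c y => #{i ∈ range N | ∃ s ∈ S ^ i, π s * π (p c) = y}, ?_, ?_, ?_⟩
  · intro c
    beta_reduce
    rw [filter_true_of_mem, card_range]
    intro i _
    refine ⟨1, ?_, by rw [map_one, one_mul]⟩
    clear * - h1S
    induction i with
    | zero => rw [pow_zero, mem_one]
    | succ i ih =>
      rw [pow_succ', mem_mul]
      exact ⟨1, h1S, 1, ih, mul_one 1⟩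
  · intro c hc c' hc' hcc
    beta_reduce
    rw [card_eq_zero, filter_eq_empty_iff]
    rintro i hi ⟨s, hs, h3⟩
    have h4 : (s * p c)⁻¹ * p c' = 1 := by
      by_contra h5
      refine hπ _ (mem_image.2 ⟨((c, c'), s), ?_, rfl⟩) h5 ?_
      · rw [mem_product, mem_product, mem_biUnion]
        exact ⟨⟨hc, hc'⟩, i, hi, hs⟩
      · rw [map_mul, map_inv, map_mul, h3, inv_mul_cancel]
    apply hp c hc c' hc' hcc
    have h5 : p c' = s * p c := by
      rw [inv_mul_eq_one] at h4
      exact h4.symm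
    rw [h5, mul_assoc, mul_inv_cancel, mul_one]
    exact hpow i s hs
  · intro c s hs y
    have key : ∀ t ∈ S, ∀ y z : P, z = π t * y →
        #{i ∈ range N | ∃ s ∈ S ^ i, π s * π (p c) = y} ≤
          #{i ∈ range N | ∃ s ∈ S ^ i, π s * π (p c) = z} + 1 := by
      intro t ht y z hz
      refine count_le N _ _ fun i hi => ?_
      obtain ⟨s, hs, h3⟩ := hi
      refine ⟨t * s, ?_, ?_⟩
      · rw [pow_succ', mem_mul]
        exact ⟨t, ht, s, hs, rfl⟩
      · rw [map_mul, mul_assoc, h3, hz]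
    constructor
    · refine key s⁻¹ ?_ _ _ ?_
      · rw [hS, mem_insert, mem_union, mem_image]
        exact Or.inr (Or.inr ⟨s, hs, rfl⟩)
      · rw [map_inv]
    · refine key s ?_ _ _ ?_
      · rw [hS, mem_insert, mem_union]
        exact Or.inr (Or.inl hs)
      · rw [mul_inv_cancel_left]

end

end Pool.Agent.Helper98.MFH
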