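import Pool.Agent.Helper98.MFH.MF

/-!
# MFH: Kronecker products of unitaries, vectors and coefficients
-/

set_option autoImplicit false
set_option linter.unusedSectionVars false

namespace Pool.Agent.Helper98.MFH

open Matrix Finset
open scoped Matrix.Norms.L2Operator Kronecker

noncomputable section

variable {ι κ : Type} [Fintype ι] [DecidableEq ι] [Fintype κ] [DecidableEq κ]

theorem norm_kron_one (A : Matrix ι ι ℂ) : ‖A ⊗ₖ (1 : Matrix κ κ ℂ)‖ ≤ ‖A‖ := by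
  rw [kronecker_one]
  exact norm_bd_le (norm_nonneg _) fun _ => le_rfl

theorem norm_one_kron (B : Matrix κ κ ℂ) : ‖(1 : Matrix ι ι ℂ) ⊗ₖ B‖ ≤ ‖B‖ := by
  rw [one_kronecker, reindex_apply, norm_submatrix]
  exact norm_bd_le (norm_nonneg _) fun _ => le_rfl

theorem norm_kron_le (A : Matrix ι ι ℂ) (B : Matrix κ κ ℂ) : ‖A ⊗ₖ B‖ ≤ ‖A‖ * ‖B‖ := by
  have : A ⊗ₖ B = (A ⊗ₖ (1 : Matrix κ κ ℂ)) * ((1 : Matrix ι ι ℂ) ⊗ₖ B) := by
    rw [← mul_kronecker_mul, Matrix.mul_one, Matrix.one_mul]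
  rw [this]
  exact (norm_mul_le _ _).trans
    (mul_le_mul (norm_kron_one A) (norm_one_kron B) (norm_nonneg _) (norm_nonneg _))

/-- Kronecker products of unitaries -/
def UK (u : unitaryGroup ι ℂ) (v : unitaryGroup κ ℂ) : unitaryGroup (ι × κ) ℂ :=
  ⟨u.1 ⊗ₖ v.1, kronecker_mem_unitary u.2 v.2⟩

theorem UK_mul (u u' : unitaryGroup ι ℂ) (v v' : unitaryGroup κ ℂ) :
    UK (u * u') (v * v') = UK u v * UK u' v' :=
  Subtype.ext (mul_kronecker_mul _ _ _ _)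

theorem UK_one : UK (1 : unitaryGroup ι ℂ) (1 : unitaryGroup κ ℂ) = 1 :=
  Subtype.ext one_kronecker_one

theorem ds_UK (u u' : unitaryGroup ι ℂ) (v v' : unitaryGroup κ ℂ) :
    ds (UK u v) (UK u' v') ≤ ds u u' + ds v v' := by
  unfold ds
  have : (UK u v).1 - (UK u' v').1 = (u.1 - u'.1) ⊗ₖ v.1 + u'.1 ⊗ₖ (v.1 - v'.1) := by
    change u.1 ⊗ₖ v.1 - u'.1 ⊗ₖ v'.1 = _
    ext x y
    simp only [Matrix.sub_apply, Matrix.add_apply, kroneckerMap_apply]
    ring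
  rw [this]
  refine (norm_add_le _ _).trans (add_le_add ?_ ?_)
  · exact (norm_kron_le _ _).trans (mul_le_of_le_one_right (norm_nonneg _) (norm_unitary_le v))
  · exact (norm_kron_le _ _).trans (mul_le_of_le_one_left (norm_nonneg _) (norm_unitary_le u'))

/-- the amplification `1 ⊗ u` -/
def AMP (β : Type) {ι : Type} [Fintype β] [DecidableEq β] [Fintype ι] [DecidableEq ι] :
    unitaryGroup ι ℂ →* unitaryGroup (β × ι) ℂ where
  toFun u := UK 1 u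
  map_one' := UK_one
  map_mul' u v := by
    have := UK_mul (1 : unitaryGroup β ℂ) 1 u v
    rwa [mul_one] at this

theorem ds_AMP (β : Type) [Fintype β] [DecidableEq β] (u v : unitaryGroup ι ℂ) :
    ds (AMP β u) (AMP β v) ≤ ds u v := by
  have := ds_UK (1 : unitaryGroup β ℂ) 1 u v
  rwa [ds_self, zero_add] at this

/-! ### coefficients -/

/-- the inner product -/
def ip (v w : ι → ℂ) : ℂ := star v ⬝ᵥ w

theorem ip_self (v : ι → ℂ) : ip v v = (nsq v : ℝ) := by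
  rw [ip, nsq, dotProduct]
  push_cast
  refine sum_congr rfl fun i _ => ?_
  rw [Pi.star_apply, ← Complex.conj_mul']
  rfl

theorem ip_add_right (u v w : ι → ℂ) : ip u (v + w) = ip u v + ip u w := dotProduct_add _ _ _

theorem ip_sub_right (u v w : ι → ℂ) : ip u (v - w) = ip u v - ip u w := dotProduct_sub _ _ _

theorem ip_conj (v w : ι → ℂ) : star (ip v w) = ip w v := by
  rw [ip, ip, star_dotProduct, star_star]

theorem ip_mulVec (M : Matrix ι ι ℂ) (v w : ι → ℂ) : ip (M *ᵥ v) w = ip v (Mᴴ *ᵥ w) := by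
  rw [ip, ip, star_mulVec, ← dotProduct_mulVec]

theorem norm_ip_le (v w : ι → ℂ) : ‖ip v w‖ ≤ √(nsq v) * √(nsq w) := by
  rw [ip, dotProduct]
  refine (norm_sum_le _ _).trans ?_
  have h := Finset.sum_mul_sq_le_sq_mul_sq univ (fun i => ‖v i‖) (fun i => ‖w i‖)
  have h1 : ∑ i, ‖(star v) i * w i‖ = ∑ i, ‖v i‖ * ‖w i‖ := by
    refine sum_congr rfl fun i _ => ?_
    rw [norm_mul, Pi.star_apply, norm_star]
  rw [h1, ← Real.sqrt_mul (nsq_nonneg v)]
  exact Real.le_sqrt_of_sq_le h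

theorem nsq_unitary (u : unitaryGroup ι ℂ) (v : ι → ℂ) : nsq (u.1 *ᵥ v) = nsq v := by
  have h : ((nsq (u.1 *ᵥ v) : ℝ) : ℂ) = (nsq v : ℝ) := by
    rw [← ip_self, ← ip_self, ip_mulVec, mulVec_mulVec]
    have : (u.1)ᴴ * u.1 = 1 := mem_unitaryGroup_iff'.1 u.2
    rw [this, one_mulVec]
  exact_mod_cast h

/-- the coefficient of `u` at `ξ` -/
def cf (u : unitaryGroup ι ℂ) (ξ : ι → ℂ) : ℂ := ip ξ (u.1 *ᵥ ξ)

theorem cf_sub_le (u v : unitaryGroup ι ℂ) {ξ : ι → ℂ} (hξ : nsq ξ = 1) :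
    ‖cf u ξ - cf v ξ‖ ≤ ds u v := by
  rw [cf, cf, ← ip_sub_right, ← Matrix.sub_mulVec]
  refine (norm_ip_le _ _).trans ?_
  rw [hξ, Real.sqrt_one, one_mul]
  have h := nsq_mulVec_le (u.1 - v.1) ξ
  rw [hξ, mul_one] at h
  exact (Real.sqrt_le_sqrt h).trans (by rw [Real.sqrt_sq (norm_nonneg _)]; rfl)

theorem norm_cf_le (u : unitaryGroup ι ℂ) {ξ : ι → ℂ} (hξ : nsq ξ = 1) : ‖cf u ξ‖ ≤ 1 := by
  refine (norm_ip_le _ _).trans ?_
  rw [nsq_unitary, hξ]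
  simp

/-- tensor products of vectors -/
def tv (v : ι → ℂ) (w : κ → ℂ) : ι × κ → ℂ := fun x => v x.1 * w x.2

theorem nsq_tv (v : ι → ℂ) (w : κ → ℂ) : nsq (tv v w) = nsq v * nsq w := by
  rw [nsq, nsq, nsq, Fintype.sum_prod_type, sum_mul_sum]
  refine sum_congr rfl fun i _ => sum_congr rfl fun j _ => ?_
  rw [tv, norm_mul, mul_pow]

theorem ip_tv (v v' : ι → ℂ) (w w' : κ → ℂ) : ip (tv v w) (tv v' w') = ip v v' * ip w w' := by
  simp only [ip, dotProduct]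
  rw [Fintype.sum_prod_type, sum_mul_sum]
  refine sum_congr rfl fun i _ => sum_congr rfl fun j _ => ?_
  simp only [Pi.star_apply, tv, star_mul']
  ring

theorem kron_tv (A : Matrix ι ι ℂ) (B : Matrix κ κ ℂ) (v : ι → ℂ) (w : κ → ℂ) :
    (A ⊗ₖ B) *ᵥ tv v w = tv (A *ᵥ v) (B *ᵥ w) := by
  funext x
  simp only [mulVec, dotProduct, tv, kroneckerMap_apply]
  rw [Fintype.sum_prod_type, sum_mul_sum]
  refine sum_congr rfl fun i _ => sum_congr rfl fun j _ => ?_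
  ring

theorem cf_UK (u : unitaryGroup ι ℂ) (v : unitaryGroup κ ℂ) (ξ : ι → ℂ) (ζ : κ → ℂ) :
    cf (UK u v) (tv ξ ζ) = cf u ξ * cf v ζ := by
  rw [cf, cf, cf, ← ip_tv]
  congr 1
  exact kron_tv _ _ _ _

end

end Pool.Agent.Helper98.MFH
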