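import Pool.Agent.Helper98.MFH.N2

/-!
# MFH: semidirect products with MF groups
-/

set_option autoImplicit false
set_option linter.unusedSectionVars false

namespace Pool.Agent.Helper98.MFH

open Matrix Finset
open scoped Matrix.Norms.L2Operator Kronecker

noncomputable section

section

variable {κ : Type} [Fintype κ] [DecidableEq κ]

theorem norm_single (i j : κ) : ‖(single i j 1 : Matrix κ κ ℂ)‖ ≤ 1 := by
  refine norm_le_of zero_le_one fun v => ?_
  have e2 : (single i j (1 : ℂ)) *ᵥ v = v j • (Pi.single i 1 : κ → ℂ) := by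
    rw [single_mulVec]
    funext k
    by_cases hk : k = i
    · subst hk; simp
    · simp [Function.update_of_ne hk, Pi.single_eq_of_ne hk]
  have e3 : nsq (Pi.single i 1 : κ → ℂ) = 1 := by
    rw [nsq, sum_eq_single i]
    · simp
    · intro b _ hb
      rw [Pi.single_eq_of_ne hb]; simp
    · simp
  rw [e2, nsq_smul, e3, one_pow, one_mul, mul_one]
  exact single_le_sum (f := fun k => ‖v k‖ ^ 2) (fun k _ => by positivity) (mem_univ j)

/-- if `u` maps the basis vector `x` almost to `y` then it almost intertwines the projections -/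
theorem intertwine (u : unitaryGroup κ ℂ) (x y : κ) {δ : ℝ}
    (h : ‖u.1 * single x x 1 - single y x 1‖ ≤ δ) :
    ‖single y y 1 * u.1 - u.1 * single x x 1‖ ≤ 2 * δ := by
  have h1 : ‖u.1 * single x y 1 - single y y 1‖ ≤ δ := by
    have : u.1 * single x y 1 - single y y 1 = (u.1 * single x x 1 - single y x 1) *
        single x y 1 := by
      rw [Matrix.sub_mul, Matrix.mul_assoc, single_mul_single_same, single_mul_single_same, mul_one]
    rw [this]
    refine (norm_mul_le _ _).trans ?_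
    exact (mul_le_of_le_one_right (norm_nonneg _) (norm_single x y)).trans h
  have h2 : ‖single x y 1 - (u⁻¹).1 * single y y 1‖ ≤ δ := by
    have : single x y 1 - (u⁻¹).1 * single y y 1 = (u⁻¹).1 *
        (u.1 * single x y 1 - single y y 1) := by
      have h3 : (u⁻¹).1 * u.1 = 1 := congrArg Subtype.val (inv_mul_cancel u)
      rw [Matrix.mul_sub, ← Matrix.mul_assoc, h3, Matrix.one_mul]
    rw [this]
    exact (norm_mul_u _ _).trans h1
  have h3 : ‖single y x 1 - single y y 1 * u.1‖ ≤ δ := by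
    have h4 : (single x y 1 - (u⁻¹).1 * single y y 1)ᴴ = single y x 1 - single y y 1 * u.1 := by
      have h5 : (u⁻¹).1 = (u.1)ᴴ := rfl
      rw [conjTranspose_sub, conjTranspose_mul, h5, conjTranspose_conjTranspose]
      simp [conjTranspose_single]
    rw [← h4, l2_opNorm_conjTranspose]
    exact h2
  have h4 : single y y 1 * u.1 - u.1 * single x x 1 =
      -((single y x 1 - single y y 1 * u.1) + (u.1 * single x x 1 - single y x 1)) := by abel
  rw [h4, norm_neg]
  refine (norm_add_le _ _).trans ?_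
  linarith

theorem bd_expand {β : Type} [Fintype β] [DecidableEq β] (M : κ → Matrix β β ℂ) :
    blockDiagonal M = ∑ s, M s ⊗ₖ single s s 1 := by
  ext x y
  rw [Matrix.sum_apply, blockDiagonal_apply, sum_eq_single x.2]
  · rw [kroneckerMap_apply, single_apply]
    by_cases h : x.2 = y.2
    · simp [h]
    · simp [h]
  · intro s _ hs
    rw [kroneckerMap_apply, single_apply]
    simp [hs]
  · simp

end

variable {Q : Type} [Group Q] [DecidableEq Q]

/-- the extension by `1` of a function on `D` -/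
def EX {U : Type} [Group U] (ι : Type) (D : Finset Q) : (Q → U) →* (ι ⊕ D → U) where
  toFun f := Sum.elim (fun _ => 1) fun y => f y
  map_one' := by
    funext s
    rcases s with s | s <;> rfl
  map_mul' f g := by
    funext s
    rcases s with s | s
    · exact (mul_one _).symm
    · rfl

section cov

variable {ι β : Type} [Fintype ι] [DecidableEq ι] [Fintype β] [DecidableEq β] (D : Finset Q)

/-- the projections -/
def EE (ι : Type) [Fintype ι] [DecidableEq ι] (D : Finset Q) (z : Q) :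
    Matrix (ι ⊕ D) (ι ⊕ D) ℂ :=
  if h : z ∈ D then single (Sum.inr ⟨z, h⟩) (Sum.inr ⟨z, h⟩) 1 else 0

theorem BD_expand (τ : Q → unitaryGroup β ℂ) :
    (BD (EX ι D τ)).1 = 1 + ∑ x ∈ D, ((τ x).1 - 1) ⊗ₖ EE ι D x := by
  have e1 : (BD (EX ι D τ)).1 = 1 + blockDiagonal fun s => (EX ι D τ s).1 - 1 := by
    have : (blockDiagonal fun s => (EX ι D τ s).1 - 1) = (BD (EX ι D τ)).1 -
        blockDiagonal fun _ => 1 := blockDiagonal_sub (fun s => (EX ι D τ s).1) fun _ => 1
    rw [this]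
    have h2 : (blockDiagonal fun _ : ι ⊕ D => (1 : Matrix β β ℂ)) = 1 := blockDiagonal_one
    rw [h2]
    abel
  rw [e1, bd_expand, Fintype.sum_sum_type]
  congr 1
  have e2 : ∑ x : ι, ((EX ι D τ (Sum.inl x)).1 - 1) ⊗ₖ
      (single (Sum.inl x) (Sum.inl x) 1 : Matrix (ι ⊕ D) (ι ⊕ D) ℂ) = 0 := by
    refine sum_eq_zero fun x _ => ?_
    have : (EX ι D τ (Sum.inl x)).1 - 1 = (0 : Matrix β β ℂ) := sub_self _
    rw [this, zero_kronecker]
  rw [e2, zero_add, ← Finset.sum_coe_sort D]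
  refine sum_congr rfl fun x _ => ?_
  have : EE ι D (x : Q) = single (Sum.inr x) (Sum.inr x) 1 := dif_pos x.2
  rw [this]
  rfl

theorem cov (u : unitaryGroup (ι ⊕ D) ℂ) (q : Q) {δ : ℝ}
    (hu : ∀ x y : D, (y : Q) = q * x →
      ‖u.1 * single (Sum.inr x) (Sum.inr x) 1 - single (Sum.inr y) (Sum.inr x) 1‖ ≤ δ)
    (X : Finset Q) (hX : X ⊆ D) (hqX : ∀ x ∈ X, q * x ∈ D) (τ : Q → unitaryGroup β ℂ)
    (hτ : ∀ x, x ∉ X → τ x = 1) :
    ds (BD (EX ι D fun y => τ (q⁻¹ * y)) * AMP β u) (AMP β u * BD (EX ι D τ)) ≤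
      #X * (4 * δ) := by
  unfold ds
  have e0 : (AMP β u).1 = (1 : Matrix β β ℂ) ⊗ₖ u.1 := rfl
  have e1 : (AMP β u * BD (EX ι D τ)).1 = (1 : Matrix β β ℂ) ⊗ₖ u.1 +
      ∑ x ∈ X, ((τ x).1 - 1) ⊗ₖ (u.1 * EE ι D x) := by
    rw [UnitaryGroup.mul_val, BD_expand, Matrix.mul_add, Matrix.mul_one, Matrix.mul_sum, e0]
    congr 1
    rw [← sum_subset hX]
    · refine sum_congr rfl fun x _ => ?_
      rw [← mul_kronecker_mul, Matrix.one_mul]
    · intro x _ hx
      rw [hτ x hx]
      have : (1 : unitaryGroup β ℂ).1 - 1 = 0 := sub_self _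
      rw [this, zero_kronecker, Matrix.mul_zero]
  have e2 : (BD (EX ι D fun y => τ (q⁻¹ * y)) * AMP β u).1 = (1 : Matrix β β ℂ) ⊗ₖ u.1 +
      ∑ x ∈ X, ((τ x).1 - 1) ⊗ₖ (EE ι D (q * x) * u.1) := by
    rw [UnitaryGroup.mul_val, BD_expand, Matrix.add_mul, Matrix.one_mul, Matrix.sum_mul, e0]
    congr 1
    have hsub : X.image (fun x => q * x) ⊆ D := by
      intro y hy
      obtain ⟨x, hx, rfl⟩ := mem_image.1 hy
      exact hqX x hx
    rw [← sum_subset hsub, sum_image]
    · refine sum_congr rfl fun x _ => ?_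
      rw [← mul_kronecker_mul, Matrix.mul_one, inv_mul_cancel_left]
    · intro a _ b _ hab
      exact mul_left_cancel hab
    · intro y _ hy
      have : q⁻¹ * y ∉ X := by
        intro h
        exact hy (mem_image.2 ⟨_, h, mul_inv_cancel_left q y⟩)
      rw [hτ _ this]
      have : (1 : unitaryGroup β ℂ).1 - 1 = 0 := sub_self _
      rw [this, zero_kronecker, Matrix.zero_mul]
  rw [e1, e2, add_sub_add_left_eq_sub, ← sum_sub_distrib]
  refine (norm_sum_le _ _).trans ?_
  rw [← nsmul_eq_mul, ← sum_const]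
  refine sum_le_sum fun x hx => ?_
  have e3 : ((τ x).1 - 1) ⊗ₖ (EE ι D (q * x) * u.1) - ((τ x).1 - 1) ⊗ₖ (u.1 * EE ι D x) =
      ((τ x).1 - 1) ⊗ₖ (EE ι D (q * x) * u.1 - u.1 * EE ι D x) := by
    ext a b
    simp only [Matrix.sub_apply, kroneckerMap_apply]
    ring
  rw [e3]
  refine (norm_kron_le _ _).trans ?_
  have h1 : ‖(τ x).1 - 1‖ ≤ 2 := by
    refine (norm_sub_le _ _).trans ?_
    have h5 := norm_unitary_le (τ x)
    have h6 := norm_unitary_le (1 : unitaryGroup β ℂ)
    have h7 : ‖(1 : Matrix β β ℂ)‖ ≤ 1 := h6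
    linarith
  have h2 : ‖EE ι D (q * x) * u.1 - u.1 * EE ι D x‖ ≤ 2 * δ := by
    have e4 : EE ι D x = single (Sum.inr ⟨x, hX hx⟩) (Sum.inr ⟨x, hX hx⟩) 1 := dif_pos (hX hx)
    have e5 : EE ι D (q * x) = single (Sum.inr ⟨q * x, hqX x hx⟩) (Sum.inr ⟨q * x, hqX x hx⟩) 1 :=
      dif_pos (hqX x hx)
    rw [e4, e5]
    exact intertwine u _ _ (hu ⟨x, hX hx⟩ ⟨q * x, hqX x hx⟩ rfl)
  calc ‖(τ x).1 - 1‖ * ‖EE ι D (q * x) * u.1 - u.1 * EE ι D x‖ ≤ 2 * (2 * δ) :=
        mul_le_mul h1 h2 (norm_nonneg _) (by norm_num)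
    _ = 4 * δ := by ring

end cov

end

end Pool.Agent.Helper98.MFH
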