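import Pool.Agent.Helper98.MFH.M2

/-!
# MFH: criterion for a semidirect product with an MF group to be MF
-/

set_option autoImplicit false
set_option linter.unusedSectionVars false

namespace Pool.Agent.Helper98.MFH

open Matrix Finset
open scoped Matrix.Norms.L2Operator Kronecker

noncomputable section

theorem mf_semidirect' {N Q : Type} [Group N] [Group Q] (ψ : Q →* MulAut N) (hQ : IsMF Q)
    (h : ∀ (A : Finset N) (B : Finset Q) (ε : ℝ), 0 < ε → ∀ n : N, n ≠ 1 →
      ∃ (β : Type) (_ : Fintype β) (_ : DecidableEq β) (F : N →* (Q → unitaryGroup β ℂ)),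
        (∀ m, {y | F m y ≠ 1}.Finite) ∧
        (∀ q ∈ B, ∀ m ∈ A, ∀ y, ds (F (ψ q m) y) (F m (q⁻¹ * y)) ≤ ε) ∧
          1 ≤ ds (F n 1) 1) : IsMF (N ⋊[ψ] Q) := by
  classical
  refine mf_of fun A ε hε g hg => ?_
  by_cases hr : g.right = 1
  · have hl : g.left ≠ 1 := by
      intro hl
      exact hg (SemidirectProduct.ext hl hr)
    set AN := A.image SemidirectProduct.left with hAN
    set AQ := A.image SemidirectProduct.right with hAQ
    obtain ⟨β, i1, i2, F, hF1, hF2, hF3⟩ := h AN AQ (ε / 2) (half_pos hε) g.left hl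
    set X : Finset Q := AN.biUnion fun m => (hF1 m).toFinset with hX
    have hXm : ∀ m ∈ AN, ∀ x, x ∉ X → F m x = 1 := by
      intro m hm x hx
      by_contra hc
      exact hx (mem_biUnion.2 ⟨m, hm, (hF1 m).mem_toFinset.2 hc⟩)
    set D : Finset Q := insert 1 (AQ ∪ X ∪ (AQ ×ˢ X).image fun z => z.1 * z.2) with hD
    have hXD : X ⊆ D := by
      intro x hx
      rw [hD, mem_insert, mem_union, mem_union]
      exact Or.inr (Or.inl (Or.inr hx))
    have hAD : AQ ⊆ D := by
      intro x hx
      rw [hD, mem_insert, mem_union, mem_union]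
      exact Or.inr (Or.inl (Or.inl hx))
    have hqX : ∀ q ∈ AQ, ∀ x ∈ X, q * x ∈ D := by
      intro q hq x hx
      rw [hD, mem_insert, mem_union, mem_image]
      exact Or.inr (Or.inr ⟨(q, x), mem_product.2 ⟨hq, hx⟩, rfl⟩)
    have h1D : (1 : Q) ∈ D := mem_insert_self _ _
    set δ : ℝ := ε / (2 * (1 + #X * 4)) with hδ
    have hδ0 : 0 < δ := by positivity
    have hδ1 : δ + #X * (4 * δ) = ε / 2 := by
      rw [hδ]; field_simp
    obtain ⟨ι, j1, j2, φ, hφ1, hφ2, hφ3⟩ := normal_form hQ D δ hδ0
    let FF : N → unitaryGroup (β × (ι ⊕ D)) ℂ := fun m => BD (EX ι D (F m))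
    have hFF : ∀ m m', FF (m * m') = FF m * FF m' := by
      intro m m'
      simp only [FF, map_mul]
    refine ⟨β × (ι ⊕ D), inferInstance, inferInstance,
      fun x => FF x.left * AMP β (φ x.right), ?_, ?_, ?_⟩
    · change FF 1 * AMP β (φ 1) = 1
      rw [hφ1]
      simp only [FF, map_one, mul_one]
    · intro a ha b hb
      beta_reduce
      have haN : a.left ∈ AN := mem_image_of_mem _ ha
      have hbN : b.left ∈ AN := mem_image_of_mem _ hb
      have haQ : a.right ∈ AQ := mem_image_of_mem _ ha
      have hbQ : b.right ∈ AQ := mem_image_of_mem _ hb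
      rw [SemidirectProduct.mul_left, SemidirectProduct.mul_right, hFF]
      have e2 : FF a.left * AMP β (φ a.right) * (FF b.left * AMP β (φ b.right)) =
          FF a.left * ((AMP β (φ a.right) * FF b.left) * AMP β (φ b.right)) := by
        simp only [mul_assoc]
      rw [e2, mul_assoc]
      refine (ds_mul_left _ _ _).trans ?_
      have e3 : ds (FF (ψ a.right b.left) * AMP β (φ (a.right * b.right)))
          ((FF (ψ a.right b.left) * AMP β (φ a.right)) * AMP β (φ b.right)) ≤ δ := by
        rw [mul_assoc, ← map_mul]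
        refine (ds_mul_left _ _ _).trans ((ds_AMP β _ _).trans ?_)
        exact hφ2 _ (hAD haQ) _ (hAD hbQ)
      have e4 : ds ((FF (ψ a.right b.left) * AMP β (φ a.right)) * AMP β (φ b.right))
          ((AMP β (φ a.right) * FF b.left) * AMP β (φ b.right)) ≤ ε / 2 + #X * (4 * δ) := by
        refine (ds_mul_right _ _ _).trans ?_
        refine (ds_tri _ (BD (EX ι D fun y => F b.left (a.right⁻¹ * y)) *
          AMP β (φ a.right)) _).trans (add_le_add ?_ ?_)
        · refine (ds_mul_right _ _ _).trans ?_
          refine ds_BD (half_pos hε).le fun s => ?_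
          rcases s with s | s
          · exact (ds_self _).trans_le (half_pos hε).le
          · exact hF2 _ haQ _ hbN s
        · exact cov D (φ a.right) a.right (fun x y hxy => hφ3 _ (hAD haQ) x y hxy) X hXD
            (fun x hx => hqX _ haQ x hx) (F b.left) (hXm _ hbN)
      refine (ds_tri _ _ _).trans ((add_le_add e3 e4).trans ?_)
      linarith
    · beta_reduce
      rw [hr, hφ1, map_one, mul_one]
      refine hF3.trans ?_
      have := le_ds_BD (EX ι D (F g.left)) 1 (Sum.inr ⟨1, h1D⟩)
      rw [map_one] at this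
      exact this
  · obtain ⟨n, φ, h1, h2, h3⟩ := hQ (insert g.right (A.image SemidirectProduct.right)) ε hε
    refine ⟨Fin n, inferInstance, inferInstance, fun x => φ x.right, h1, ?_, ?_⟩
    · intro a ha b hb
      beta_reduce
      rw [SemidirectProduct.mul_right]
      exact (h2 _ (mem_insert_of_mem (mem_image_of_mem _ ha)) _
        (mem_insert_of_mem (mem_image_of_mem _ hb))).le
    · exact h3 _ (mem_insert_self _ _) hr

end

end Pool.Agent.Helper98.MFH
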