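import Pool.Agent.Helper98.MFH.Blk

/-!
# MFH: MF groups, direct sums, semidirect products
-/

set_option autoImplicit false
set_option linter.unusedSectionVars false

namespace Pool.Agent.Helper98.MFH

open Matrix Finset
open scoped Matrix.Norms.L2Operator

noncomputable section

/-- MF groups: approximable by unitary matrices in the operator norm -/
def IsMF (G : Type) [Group G] : Prop :=
  ∀ (A : Finset G) (ε : ℝ), 0 < ε → ∃ (n : ℕ) (φ : G → unitaryGroup (Fin n) ℂ), φ 1 = 1 ∧
    (∀ a ∈ A, ∀ b ∈ A, ds (φ (a * b)) (φ a * φ b) < ε) ∧ ∀ a ∈ A, a ≠ 1 → 1 ≤ ds (φ a) 1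

/-! ### reindexing -/

section reindex

variable {ι κ : Type} [Fintype ι] [DecidableEq ι] [Fintype κ] [DecidableEq κ]

theorem nsq_comp (e : κ ≃ ι) (v : ι → ℂ) : nsq (v ∘ e) = nsq v := by
  rw [nsq, nsq]
  exact Equiv.sum_comp e fun i => ‖v i‖ ^ 2

theorem sub_mulVec' (e : κ ≃ ι) (M : Matrix ι ι ℂ) (v : κ → ℂ) :
    M.submatrix e e *ᵥ v = (M *ᵥ (v ∘ e.symm)) ∘ e := by
  funext k
  rw [mulVec, dotProduct, Function.comp_apply, mulVec, dotProduct]
  rw [← Equiv.sum_comp e]
  refine sum_congr rfl fun i _ => ?_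
  simp

theorem norm_submatrix_le (e : κ ≃ ι) (M : Matrix ι ι ℂ) : ‖M.submatrix e e‖ ≤ ‖M‖ := by
  refine norm_le_of (norm_nonneg _) fun v => ?_
  rw [sub_mulVec', nsq_comp]
  refine (nsq_mulVec_le _ _).trans ?_
  rw [nsq_comp]

theorem norm_submatrix (e : κ ≃ ι) (M : Matrix ι ι ℂ) : ‖M.submatrix e e‖ = ‖M‖ := by
  refine le_antisymm (norm_submatrix_le e M) ?_
  have := norm_submatrix_le e.symm (M.submatrix e e)
  rwa [submatrix_submatrix, Equiv.self_comp_symm, submatrix_id_id] at this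

/-- reindexing unitaries -/
def RI (e : κ ≃ ι) : unitaryGroup ι ℂ →* unitaryGroup κ ℂ where
  toFun u := ⟨u.1.submatrix e e, by
    rw [mem_unitaryGroup_iff, star_eq_conjTranspose, conjTranspose_submatrix,
      submatrix_mul_equiv, ← star_eq_conjTranspose, mem_unitaryGroup_iff.1 u.2]
    exact submatrix_one_equiv e⟩
  map_one' := Subtype.ext (submatrix_one_equiv e)
  map_mul' u v := Subtype.ext (submatrix_mul_equiv u.1 v.1 e e e).symm

theorem ds_RI (e : κ ≃ ι) (u v : unitaryGroup ι ℂ) : ds (RI e u) (RI e v) = ds u v := by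
  unfold ds
  exact norm_submatrix e (u.1 - v.1)

end reindex

/-! ### direct sums -/

section sums

variable {I : Type} {m : I → Type} [Fintype I] [DecidableEq I] [∀ i, Fintype (m i)]
  [∀ i, DecidableEq (m i)]

theorem bd'_mulVec (M : ∀ i, Matrix (m i) (m i) ℂ) (v : (Σ i, m i) → ℂ) (i : I) (b : m i) :
    (blockDiagonal' M *ᵥ v) ⟨i, b⟩ = (M i *ᵥ fun b' => v ⟨i, b'⟩) b := by
  rw [mulVec, dotProduct, mulVec, dotProduct, Fintype.sum_sigma, Finset.sum_eq_single i]
  · refine sum_congr rfl fun b' _ => ?_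
    rw [blockDiagonal'_apply_eq]
  · intro j _ hj
    refine sum_eq_zero fun b' _ => ?_
    rw [blockDiagonal'_apply_ne _ _ _ hj.symm, zero_mul]
  · simp

theorem nsq_sigma (v : (Σ i, m i) → ℂ) : nsq v = ∑ i, nsq fun b => v ⟨i, b⟩ := by
  rw [nsq, Fintype.sum_sigma]
  rfl

theorem norm_bd'_le {M : ∀ i, Matrix (m i) (m i) ℂ} {c : ℝ} (hc : 0 ≤ c) (h : ∀ i, ‖M i‖ ≤ c) :
    ‖blockDiagonal' M‖ ≤ c := by
  refine norm_le_of hc fun v => ?_
  rw [nsq_sigma, nsq_sigma v, mul_sum]
  refine sum_le_sum fun i _ => ?_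
  have h1 : (fun b => (blockDiagonal' M *ᵥ v) ⟨i, b⟩) = M i *ᵥ fun b' => v ⟨i, b'⟩ := by
    funext b
    exact bd'_mulVec M v i b
  rw [h1]
  refine (nsq_mulVec_le _ _).trans ?_
  exact mul_le_mul_of_nonneg_right (pow_le_pow_left₀ (norm_nonneg _) (h i) 2) (nsq_nonneg _)

theorem norm_le_bd' (M : ∀ i, Matrix (m i) (m i) ℂ) (i : I) : ‖M i‖ ≤ ‖blockDiagonal' M‖ := by
  refine norm_le_of (norm_nonneg _) fun v => ?_
  have h := nsq_mulVec_le (blockDiagonal' M)
    (fun x : Σ i, m i => if h : x.1 = i then v (h ▸ x.2) else 0)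
  have e1 : nsq (fun x : Σ i, m i => if h : x.1 = i then v (h ▸ x.2) else 0) = nsq v := by
    rw [nsq_sigma, Finset.sum_eq_single i]
    · simp
    · intro q _ hq
      simp [hq, nsq]
    · simp
  rw [e1] at h
  refine le_trans ?_ h
  rw [nsq_sigma]
  have e2 : nsq (M i *ᵥ v) = nsq fun b => (blockDiagonal' M *ᵥ
      (fun x : Σ i, m i => if h : x.1 = i then v (h ▸ x.2) else 0)) ⟨i, b⟩ := by
    congr 1
    funext b
    rw [bd'_mulVec]
    simp
  rw [e2]
  exact Finset.single_le_sum (f := fun q => nsq fun b => (blockDiagonal' M *ᵥ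
      (fun x : Σ i, m i => if h : x.1 = i then v (h ▸ x.2) else 0)) ⟨q, b⟩)
    (fun q _ => nsq_nonneg _) (mem_univ i)

/-- direct sums of unitaries -/
def BS : (∀ i, unitaryGroup (m i) ℂ) →* unitaryGroup (Σ i, m i) ℂ where
  toFun F := ⟨blockDiagonal' fun p => (F p).1, by
    rw [mem_unitaryGroup_iff, star_eq_conjTranspose, blockDiagonal'_conjTranspose,
      ← blockDiagonal'_mul, ← blockDiagonal'_one]
    congr 1
    funext p
    exact mem_unitaryGroup_iff.1 (F p).2⟩
  map_one' := Subtype.ext blockDiagonal'_one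
  map_mul' F F' := Subtype.ext (by
    rw [UnitaryGroup.mul_val]
    exact blockDiagonal'_mul (fun p => (F p).1) fun p => (F' p).1)

theorem ds_BS {F F' : ∀ i, unitaryGroup (m i) ℂ} {c : ℝ} (hc : 0 ≤ c)
    (h : ∀ p, ds (F p) (F' p) ≤ c) : ds (BS F) (BS F') ≤ c := by
  unfold ds
  have : (BS F).1 - (BS F').1 = blockDiagonal' fun p => (F p).1 - (F' p).1 :=
    (blockDiagonal'_sub (fun p => (F p).1) fun p => (F' p).1).symm
  rw [this]
  exact norm_bd'_le hc h

theorem le_ds_BS (F F' : ∀ i, unitaryGroup (m i) ℂ) (p : I) :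
    ds (F p) (F' p) ≤ ds (BS F) (BS F') := by
  unfold ds
  have : (BS F).1 - (BS F').1 = blockDiagonal' fun p => (F p).1 - (F' p).1 :=
    (blockDiagonal'_sub (fun p => (F p).1) fun p => (F' p).1).symm
  rw [this]
  exact norm_le_bd' (fun p => (F p).1 - (F' p).1) p

end sums

/-- It suffices to separate one element at a time. -/
theorem mf_of {G : Type} [Group G]
    (h : ∀ (A : Finset G) (ε : ℝ), 0 < ε → ∀ g : G, g ≠ 1 →
      ∃ (ι : Type) (_ : Fintype ι) (_ : DecidableEq ι) (φ : G → unitaryGroup ι ℂ), φ 1 = 1 ∧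
        (∀ a ∈ A, ∀ b ∈ A, ds (φ (a * b)) (φ a * φ b) ≤ ε) ∧ 1 ≤ ds (φ g) 1) : IsMF G := by
  classical
  intro A ε hε
  choose ι i1 i2 φ h1 h2 h3 using h A (ε / 2) (half_pos hε)
  let I : Type := {g : G // g ∈ A ∧ g ≠ 1}
  have : Finite I := (A.finite_toSet.subset (fun g (hg : g ∈ A ∧ g ≠ 1) => hg.1)).to_subtype
  have : Fintype I := Fintype.ofFinite I
  let Φ : G → unitaryGroup (Σ i : I, ι i.1 i.2.2) ℂ := fun g => BS fun i => φ i.1 i.2.2 g
  let e := (Fintype.equivFin (Σ i : I, ι i.1 i.2.2)).symm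
  refine ⟨_, fun g => RI e (Φ g), ?_, ?_, ?_⟩
  · change RI e (Φ 1) = 1
    have : Φ 1 = 1 := by
      change BS _ = 1
      have : (fun i : I => φ i.1 i.2.2 1) = 1 := by
        funext i
        exact h1 _ _
      rw [this, map_one]
    rw [this, map_one]
  · intro a ha b hb
    rw [← map_mul, ds_RI]
    change ds (BS _) (BS _ * BS _) < ε
    rw [← map_mul]
    refine (ds_BS (half_pos hε).le fun i => ?_).trans_lt (half_lt_self hε)
    exact h2 _ _ a ha b hb
  · intro a ha ha1
    have : (1 : unitaryGroup (Fin (Fintype.card (Σ i : I, ι i.1 i.2.2))) ℂ) = RI e 1 :=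
      (map_one _).symm
    rw [this, ds_RI]
    refine (h3 a ha1).trans ?_
    have h4 := le_ds_BS (fun i : I => φ i.1 i.2.2 a) (1 : ∀ i : I, unitaryGroup (ι i.1 i.2.2) ℂ)
      ⟨a, ha, ha1⟩
    rw [map_one] at h4
    exact h4

/-- MF passes to groups which embed -/
theorem mf_inj {G H : Type} [Group G] [Group H] (f : G →* H) (hf : Function.Injective f)
    (h : IsMF H) : IsMF G := by
  classical
  intro A ε hε
  obtain ⟨n, φ, h1, h2, h3⟩ := h (A.image f) ε hε
  refine ⟨n, fun g => φ (f g), by beta_reduce; rw [map_one, h1], fun a ha b hb => ?_,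
    fun a ha ha1 => ?_⟩
  · beta_reduce
    rw [map_mul]
    exact h2 _ (mem_image_of_mem _ ha) _ (mem_image_of_mem _ hb)
  · refine h3 _ (mem_image_of_mem _ ha) ?_
    intro h4
    exact ha1 (hf (by rw [h4, map_one]))

/-- residually finite groups -/
def RFin (Q : Type) [Group Q] : Prop :=
  ∀ q : Q, q ≠ 1 → ∃ (P : Type) (_ : Group P) (_ : Finite P) (π : Q →* P), π q ≠ 1

theorem RFin.finset {Q : Type} [Group Q] (h : RFin Q) (S : Finset Q) :
    ∃ (P : Type) (_ : Group P) (_ : Finite P) (π : Q →* P), ∀ q ∈ S, q ≠ 1 → π q ≠ 1 := by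
  classical
  choose P i1 i2 π hπ using h
  let I : Type := {g : Q // g ∈ S ∧ g ≠ 1}
  have : Finite I := (S.finite_toSet.subset (fun g (hg : g ∈ S ∧ g ≠ 1) => hg.1)).to_subtype
  refine ⟨∀ i : I, P i.1 i.2.2, inferInstance, inferInstance,
    MonoidHom.pi fun i => π i.1 i.2.2, fun q hq hq1 h2 => ?_⟩
  exact hπ q hq1 (congrFun h2 ⟨q, hq, hq1⟩)

theorem mf_semidirect {N Q : Type} [Group N] [Group Q] (ψ : Q →* MulAut N) (hQ : RFin Q)
    (h : ∀ (A : Finset N) (B : Finset Q) (ε : ℝ), 0 < ε → ∀ n : N, n ≠ 1 →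
      ∃ (β P : Type) (_ : Fintype β) (_ : DecidableEq β) (_ : Group P) (_ : Fintype P)
        (_ : DecidableEq P) (π : Q →* P) (F : N →* (P → unitaryGroup β ℂ)),
        (∀ q ∈ B, ∀ m ∈ A, ∀ y, ds (F (ψ q m) y) (F m ((π q)⁻¹ * y)) ≤ ε) ∧
          ∃ y, 1 ≤ ds (F n y) 1) : IsMF (N ⋊[ψ] Q) := by
  classical
  refine mf_of fun A ε hε g hg => ?_
  by_cases hr : g.right = 1
  · have hl : g.left ≠ 1 := by
      intro hl
      exact hg (SemidirectProduct.ext hl hr)
    obtain ⟨β, P, i1, i2, i3, i4, i5, π, F, hF1, y, hy⟩ :=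
      h (A.image SemidirectProduct.left) (A.image SemidirectProduct.right) ε hε g.left hl
    refine ⟨β × P, inferInstance, inferInstance,
      fun x => BD (F x.left) * Lam β (π x.right), ?_, ?_, ?_⟩
    · simp
    · intro a ha b hb
      have e1 : BD (F (a * b).left) * Lam β (π (a * b).right) =
          BD (F a.left) * (BD (F (ψ a.right b.left)) *
            (Lam β (π a.right) * Lam β (π b.right))) := by
        rw [SemidirectProduct.mul_left, SemidirectProduct.mul_right]
        simp only [map_mul, mul_assoc]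
      have e2 : BD (F a.left) * Lam β (π a.right) * (BD (F b.left) * Lam β (π b.right)) =
          BD (F a.left) * (BD (fun y => F b.left ((π a.right)⁻¹ * y)) *
            (Lam β (π a.right) * Lam β (π b.right))) := by
        have h3 := Lam_mul_BD (π a.right) (F b.left)
        calc _ = BD (F a.left) * ((Lam β (π a.right) * BD (F b.left)) * Lam β (π b.right)) := by
              simp only [mul_assoc]
          _ = _ := by rw [h3]; simp only [mul_assoc]
      beta_reduce
      rw [e1, e2]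
      refine (ds_mul_left _ _ _).trans ((ds_mul_right _ _ _).trans ?_)
      refine ds_BD hε.le fun y => ?_
      exact hF1 _ (mem_image_of_mem _ ha) _ (mem_image_of_mem _ hb) y
    · beta_reduce
      rw [hr, map_one, map_one, mul_one]
      refine hy.trans ?_
      have := le_ds_BD (F g.left) 1 y
      rwa [map_one] at this
  · obtain ⟨P, i3, i4, π, hπ⟩ := hQ g.right hr
    have : Fintype P := Fintype.ofFinite P
    refine ⟨Unit × P, inferInstance, inferInstance, fun x => Lam Unit (π x.right), ?_, ?_, ?_⟩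
    · simp
    · intro a _ b _
      beta_reduce
      rw [SemidirectProduct.mul_right, map_mul, map_mul, ds_self]
      exact hε.le
    · have := one_le_ds_Lam (β := Unit) (π g.right) hπ 1 rfl
      rwa [map_one, one_mul] at this

end

end Pool.Agent.Helper98.MFH
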