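import Pool.Agent.Helper98.MFH.Nf

/-!
# MFH: normal form of the approximations of an MF group
-/

set_option autoImplicit false
set_option linter.unusedSectionVars false

namespace Pool.Agent.Helper98.MFH

open Matrix Finset
open scoped Matrix.Norms.L2Operator

noncomputable section

variable {Q : Type} [Group Q]

theorem nsq_sub_le {ι : Type} [Fintype ι] (v w : ι → ℂ) : nsq (v - w) ≤ 2 * nsq v + 2 * nsq w := by
  rw [nsq, nsq, nsq, mul_sum, mul_sum, ← sum_add_distrib]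
  refine sum_le_sum fun i _ => ?_
  rw [Pi.sub_apply]
  have h1 := norm_sub_le (v i) (w i)
  have h2 := norm_nonneg (v i - w i)
  nlinarith [sq_nonneg (‖v i‖ - ‖w i‖)]

theorem norm_single_le {κ : Type} [Fintype κ] [DecidableEq κ] (X : Matrix κ κ ℂ) (i j : κ)
    {d : ℝ} (hd : 0 ≤ d) (h : nsq (X *ᵥ Pi.single i 1 - Pi.single j 1) ≤ d ^ 2) :
    ‖X * single i i 1 - single j i 1‖ ≤ d := by
  refine norm_le_of hd fun v => ?_
  have e1 : (X * single i i 1 - single j i 1) *ᵥ v =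
      v i • (X *ᵥ Pi.single i 1 - Pi.single j 1) := by
    rw [Matrix.sub_mulVec, ← mulVec_mulVec]
    have e2 : ∀ a b : κ, (single a b (1 : ℂ)) *ᵥ v = v b • (Pi.single a 1 : κ → ℂ) := by
      intro a b
      rw [single_mulVec]
      funext k
      by_cases hk : k = a
      · subst hk; simp
      · simp [Function.update_of_ne hk, Pi.single_eq_of_ne hk]
    rw [e2, e2, mulVec_smul, smul_sub]
  rw [e1, nsq_smul]
  have h1 : ‖v i‖ ^ 2 ≤ nsq v :=
    single_le_sum (f := fun k => ‖v k‖ ^ 2) (fun k _ => by positivity) (mem_univ i)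
  have h2 := nsq_nonneg v
  calc ‖v i‖ ^ 2 * nsq (X *ᵥ Pi.single i 1 - Pi.single j 1) ≤ nsq v * d ^ 2 :=
        mul_le_mul h1 h (nsq_nonneg _) h2
    _ = d ^ 2 * nsq v := mul_comm _ _

theorem normal_form [DecidableEq Q] (hQ : IsMF Q) (D : Finset Q) (δ : ℝ) (hδ : 0 < δ) :
    ∃ (ι : Type) (_ : Fintype ι) (_ : DecidableEq ι) (φ : Q → unitaryGroup (ι ⊕ D) ℂ),
      φ 1 = 1 ∧ (∀ a ∈ D, ∀ b ∈ D, ds (φ (a * b)) (φ a * φ b) ≤ δ) ∧
      ∀ a ∈ D, ∀ x y : D, (y : Q) = a * x →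
        ‖(φ a).1 * single (Sum.inr x) (Sum.inr x) 1 - single (Sum.inr y) (Sum.inr x) 1‖ ≤ δ := by
  set m : ℝ := (Fintype.card D : ℝ) with hm
  have hm0 : 0 ≤ m := Nat.cast_nonneg _
  set t : ℝ := δ ^ 2 / 8 with ht
  have ht0 : 0 < t := by positivity
  set η : ℝ := min (δ / 2) (t / (2 * (m + 1))) with hη
  have hη0 : 0 < η := lt_min (by positivity) (by positivity)
  have hη1 : η ≤ δ / 2 := min_le_left _ _
  have hη2 : m * (2 * η) ≤ t := by
    have h1 : η ≤ t / (2 * (m + 1)) := min_le_right _ _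
    rw [le_div_iff₀ (by positivity)] at h1
    nlinarith
  obtain ⟨ι, i1, i2, φ, ξ, h1, h2, h3, h4⟩ := small_coef hQ
    (D ∪ (D ×ˢ D).image fun x => x.1⁻¹ * x.2) η η hη0 hη0
  let V1 : D → ι → ℂ := fun x => (φ x).1 *ᵥ ξ
  let G : Matrix D D ℂ := fun x y => ip (V1 x) (V1 y)
  have hG : G.IsHermitian := by
    ext x y
    rw [conjTranspose_apply]
    exact ip_conj _ _
  have hGx : ∀ x, G x x = 1 := by
    intro x
    change ip (V1 x) (V1 x) = 1
    rw [ip_self]
    change ((nsq ((φ x).1 *ᵥ ξ) : ℝ) : ℂ) = 1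
    rw [nsq_unitary, h3, Complex.ofReal_one]
  have hG1 : ‖G - 1‖ ≤ t := by
    refine (norm_le_entries _ (by positivity : (0 : ℝ) ≤ 2 * η) fun x y => ?_).trans hη2
    by_cases hxy : x = y
    · subst hxy
      rw [Matrix.sub_apply, hGx, Matrix.one_apply_eq, sub_self, norm_zero]
      positivity
    · rw [Matrix.sub_apply, Matrix.one_apply_ne hxy, sub_zero]
      have e1 : G x y = cf ((φ x)⁻¹ * φ y) ξ := by
        change ip ((φ x).1 *ᵥ ξ) ((φ y).1 *ᵥ ξ) = ip ξ (((φ x)⁻¹ * φ y).1 *ᵥ ξ)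
        rw [ip_mulVec, mulVec_mulVec]
        rfl
      have hxy1 : (x : Q)⁻¹ * y ≠ 1 := by
        intro h
        exact hxy (Subtype.ext (inv_mul_eq_one.1 h))
      have hmem : (x : Q)⁻¹ * y ∈ D ∪ (D ×ˢ D).image fun x => x.1⁻¹ * x.2 :=
        mem_union_right _ (mem_image.2 ⟨(x, y), mem_product.2 ⟨x.2, y.2⟩, rfl⟩)
      have e2 := h4 _ hmem hxy1
      have e3 : ds ((φ x)⁻¹ * φ y) (φ ((x : Q)⁻¹ * y)) ≤ η := by
        have e4 := h2 x (mem_union_left _ x.2) _ hmem
        rw [mul_inv_cancel_left] at e4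
        have e5 := ds_mul_left (φ x)⁻¹ (φ y) (φ x * φ ((x : Q)⁻¹ * y))
        rw [inv_mul_cancel_left] at e5
        exact e5.trans e4
      have e4 := cf_sub_le ((φ x)⁻¹ * φ y) (φ ((x : Q)⁻¹ * y)) h3
      rw [e1]
      have e5 := norm_sub_norm_le (cf ((φ x)⁻¹ * φ y) ξ) (cf (φ ((x : Q)⁻¹ * y)) ξ)
      linarith
  obtain ⟨R, hR⟩ := exists_root G hG t hG1
  have hRx : ∀ x, nsq (fun z => R z x) = t := by
    intro x
    have e1 : (Rᴴ * R) x x = ((nsq fun z => R z x : ℝ) : ℂ) := by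
      rw [← ip_self]
      rfl
    rw [hR, Matrix.sub_apply, Matrix.smul_apply, Matrix.one_apply_eq, hGx, smul_eq_mul, mul_one]
      at e1
    have e2 : ((t : ℝ) : ℂ) = ((nsq fun z => R z x : ℝ) : ℂ) := by
      rw [← e1]
      push_cast
      ring
    exact_mod_cast e2.symm
  set c : ℝ := √(1 / (1 + t)) with hc
  have hc2 : c ^ 2 = 1 / (1 + t) := Real.sq_sqrt (by positivity)
  let V : D → ι ⊕ D → ℂ := fun x => (c : ℂ) • Sum.elim (V1 x) (fun z => R z x)
  have hV : ∀ x y, ip (V x) (V y) = if x = y then 1 else 0 := by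
    intro x y
    have e1 : ip (V x) (V y) = ((c ^ 2 : ℝ) : ℂ) * (G x y + (Rᴴ * R) x y) := by
      change star ((c : ℂ) • Sum.elim (V1 x) (fun z => R z x)) ⬝ᵥ
        ((c : ℂ) • Sum.elim (V1 y) (fun z => R z y)) = _
      rw [star_smul, smul_dotProduct, dotProduct_smul, smul_eq_mul, smul_eq_mul,
        Complex.star_def, Complex.conj_ofReal, ← mul_assoc]
      congr 1
      · push_cast; ring
      · rw [dotProduct, Fintype.sum_sum_type]
        rfl
    rw [e1, hR, Matrix.sub_apply, Matrix.smul_apply, hc2]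
    have e2 : (1 : ℂ) + t ≠ 0 := by
      have : (1 + t : ℝ) ≠ 0 := by positivity
      exact_mod_cast this
    by_cases hxy : x = y
    · subst hxy
      rw [if_pos rfl, Matrix.one_apply_eq]
      push_cast
      field_simp
      simp
    · rw [if_neg hxy, Matrix.one_apply_ne hxy]
      simp
  obtain ⟨B, hB⟩ := exists_basis V hV
  refine ⟨ι, i1, i2, fun a => B⁻¹ * DSm D (φ a) * B, ?_, ?_, ?_⟩
  · beta_reduce
    rw [h1, map_one, mul_one, inv_mul_cancel]
  · intro a ha b hb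
    have e1 : B⁻¹ * DSm D (φ a) * B * (B⁻¹ * DSm D (φ b) * B) =
        B⁻¹ * DSm D (φ a * φ b) * B := by
      rw [map_mul]
      group
    rw [e1]
    refine (ds_mul_right _ _ _).trans ((ds_mul_left _ _ _).trans ((ds_DSm _ _).trans ?_))
    exact (h2 a (mem_union_left _ ha) b (mem_union_left _ hb)).trans (hη1.trans (by linarith))
  · intro a ha x y hxy
    refine norm_single_le _ _ _ hδ.le ?_
    have e1 : (B⁻¹ * DSm D (φ a) * B).1 *ᵥ Pi.single (Sum.inr x) 1 =
        (B⁻¹).1 *ᵥ ((DSm D (φ a)).1 *ᵥ V x) := by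
      rw [UnitaryGroup.mul_val, UnitaryGroup.mul_val, ← hB x, mulVec_mulVec, mulVec_mulVec,
        Matrix.mul_assoc]
    have e2 : (Pi.single (Sum.inr y) 1 : ι ⊕ D → ℂ) = (B⁻¹).1 *ᵥ V y := by
      rw [← hB y, mulVec_mulVec]
      have : (B⁻¹).1 * B.1 = 1 := by
        have := congrArg Subtype.val (inv_mul_cancel B)
        exact this
      rw [this, one_mulVec]
    beta_reduce
    rw [e1, e2, ← mulVec_sub, nsq_unitary]
    have e3 : (DSm D (φ a)).1 *ᵥ V x - V y = (c : ℂ) •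
        Sum.elim ((φ a).1 *ᵥ V1 x - V1 y) ((fun z => R z x) - fun z => R z y) := by
      change fromBlocks (φ a).1 0 0 1 *ᵥ ((c : ℂ) • Sum.elim (V1 x) (fun z => R z x)) -
        (c : ℂ) • Sum.elim (V1 y) (fun z => R z y) = _
      rw [mulVec_smul, ← smul_sub, fromBlocks_mv]
      congr 1
      funext s
      rcases s with s | s
      · rfl
      · simp
    rw [e3, nsq_smul, nsq_sum]
    simp only [Sum.elim_inl, Sum.elim_inr]
    have e4 : nsq (fun i => ((φ a).1 *ᵥ V1 x - V1 y) i) ≤ η ^ 2 := by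
      have e5 : (φ a).1 *ᵥ V1 x - V1 y = ((φ a * φ x).1 - (φ (a * x)).1) *ᵥ ξ := by
        rw [Matrix.sub_mulVec, UnitaryGroup.mul_val, ← mulVec_mulVec, ← hxy]
      rw [show (fun i => ((φ a).1 *ᵥ V1 x - V1 y) i) = (φ a).1 *ᵥ V1 x - V1 y from rfl, e5]
      refine (nsq_mulVec_le _ _).trans ?_
      rw [h3, mul_one]
      refine pow_le_pow_left₀ (norm_nonneg _) ?_ 2
      rw [norm_sub_rev]
      exact h2 a (mem_union_left _ ha) x (mem_union_left _ x.2)
    have e5 : nsq (fun k => ((fun z => R z x) - fun z => R z y) k) ≤ 4 * t := by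
      have e6 := nsq_sub_le (fun z => R z x) (fun z => R z y)
      rw [hRx, hRx] at e6
      refine le_trans (le_of_eq rfl) (e6.trans (by linarith))
    have e6 : ‖(c : ℂ)‖ ^ 2 ≤ 1 := by
      rw [Complex.norm_real, Real.norm_eq_abs, sq_abs, hc2, div_le_one (by positivity)]
      linarith
    have e7 := nsq_nonneg fun i => ((φ a).1 *ᵥ V1 x - V1 y) i
    have e8 := nsq_nonneg fun k => ((fun z => R z x) - fun z => R z y) k
    calc ‖(c : ℂ)‖ ^ 2 * (nsq (fun i => ((φ a).1 *ᵥ V1 x - V1 y) i) +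
          nsq fun k => ((fun z => R z x) - fun z => R z y) k) ≤ 1 * (η ^ 2 + 4 * t) := by
          apply mul_le_mul e6 (by linarith) (by positivity) (by norm_num)
      _ ≤ δ ^ 2 := by
        rw [ht]
        nlinarith

end

end Pool.Agent.Helper98.MFH
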