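import Pool.Agent.Helper98.MFH.Sm

/-!
# MFH: approximations of an MF group which contain finite pieces of the regular representation
-/

set_option autoImplicit false
set_option linter.unusedSectionVars false

namespace Pool.Agent.Helper98.MFH

open Matrix Finset
open scoped Matrix.Norms.L2Operator

noncomputable section

theorem norm_le_entries {κ : Type} [Fintype κ] [DecidableEq κ] (X : Matrix κ κ ℂ) {d : ℝ}
    (hd : 0 ≤ d) (h : ∀ x y, ‖X x y‖ ≤ d) : ‖X‖ ≤ Fintype.card κ * d := by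
  refine norm_le_of (by positivity) fun v => ?_
  have h1 : ∀ x, ‖(X *ᵥ v) x‖ ^ 2 ≤ Fintype.card κ * d ^ 2 * nsq v := by
    intro x
    have h2 : ‖(X *ᵥ v) x‖ ≤ ∑ y, d * ‖v y‖ := by
      rw [mulVec, dotProduct]
      refine (norm_sum_le _ _).trans (sum_le_sum fun y _ => ?_)
      rw [norm_mul]
      exact mul_le_mul_of_nonneg_right (h x y) (norm_nonneg _)
    have h3 := Finset.sum_mul_sq_le_sq_mul_sq univ (fun _ : κ => d) (fun i => ‖v i‖)
    rw [sum_const, card_univ, nsmul_eq_mul] at h3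
    exact (pow_le_pow_left₀ (norm_nonneg _) h2 2).trans h3
  calc nsq (X *ᵥ v) ≤ ∑ _x : κ, Fintype.card κ * d ^ 2 * nsq v := sum_le_sum fun x _ => h1 x
    _ = (Fintype.card κ * d) ^ 2 * nsq v := by
      rw [sum_const, card_univ, nsmul_eq_mul]; ring

/-! ### direct sum with an identity -/

section ds

variable {ι κ : Type} [Fintype ι] [DecidableEq ι] [Fintype κ] [DecidableEq κ]

theorem nsq_sum (v : ι ⊕ κ → ℂ) : nsq v = nsq (fun i => v (Sum.inl i)) +
    nsq fun k => v (Sum.inr k) := Fintype.sum_sum_type _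

theorem fromBlocks_mv (A : Matrix ι ι ℂ) (B : Matrix κ κ ℂ) (v : ι ⊕ κ → ℂ) :
    fromBlocks A 0 0 B *ᵥ v = Sum.elim (A *ᵥ fun i => v (Sum.inl i))
      (B *ᵥ fun k => v (Sum.inr k)) := by
  rw [fromBlocks_mulVec]
  simp only [zero_mulVec, add_zero, zero_add]
  rfl

/-- the direct sum with the identity -/
def DSm (κ : Type) {ι : Type} [Fintype ι] [DecidableEq ι] [Fintype κ] [DecidableEq κ] :
    unitaryGroup ι ℂ →* unitaryGroup (ι ⊕ κ) ℂ where
  toFun u := ⟨fromBlocks u.1 0 0 1, by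
    rw [mem_unitaryGroup_iff, star_eq_conjTranspose, fromBlocks_conjTranspose,
      fromBlocks_multiply]
    have : u.1 * (u.1)ᴴ = 1 := mem_unitaryGroup_iff.1 u.2
    simp [this]⟩
  map_one' := Subtype.ext fromBlocks_one
  map_mul' u v := Subtype.ext (by
    change fromBlocks (u.1 * v.1) 0 0 1 = fromBlocks u.1 0 0 1 * fromBlocks v.1 0 0 1
    rw [fromBlocks_multiply]
    simp)

theorem ds_DSm (u v : unitaryGroup ι ℂ) : ds (DSm κ u) (DSm κ v) ≤ ds u v := by
  unfold ds
  have : (DSm κ u).1 - (DSm κ v).1 = fromBlocks (u.1 - v.1) 0 0 0 := by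
    change fromBlocks u.1 0 0 1 - fromBlocks v.1 0 0 1 = _
    rw [sub_eq_add_neg, fromBlocks_neg, fromBlocks_add, ← sub_eq_add_neg]
    simp
  rw [this]
  refine norm_le_of (norm_nonneg _) fun w => ?_
  rw [nsq_sum, nsq_sum w, fromBlocks_mv]
  simp only [Sum.elim_inl, Sum.elim_inr, zero_mulVec]
  have h1 := nsq_mulVec_le (u.1 - v.1) fun i => w (Sum.inl i)
  have h2 : nsq (fun k => (0 : κ → ℂ) k) = 0 := by simp [nsq]
  have h3 := nsq_nonneg fun k => w (Sum.inr k)
  have h4 := norm_nonneg (u.1 - v.1)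
  rw [h2, mul_add, add_zero]
  exact h1.trans (le_add_of_nonneg_right (by positivity))

end ds

/-! ### from orthonormal vectors to basis vectors -/

theorem exists_basis {ι κ : Type} [Fintype ι] [DecidableEq ι] [Fintype κ] [DecidableEq κ]
    (V : κ → ι ⊕ κ → ℂ) (hV : ∀ x y, ip (V x) (V y) = if x = y then 1 else 0) :
    ∃ B : unitaryGroup (ι ⊕ κ) ℂ, ∀ x, B.1 *ᵥ Pi.single (Sum.inr x) 1 = V x := by
  let v : ι ⊕ κ → EuclideanSpace ℂ (ι ⊕ κ) :=
    fun j => Sum.elim (fun _ => 0) (fun x => WithLp.toLp 2 (V x)) j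
  have hin : ∀ f g : ι ⊕ κ → ℂ, inner ℂ (WithLp.toLp 2 f : EuclideanSpace ℂ (ι ⊕ κ))
      (WithLp.toLp 2 g) = ip f g := by
    intro f g
    rw [EuclideanSpace.inner_toLp_toLp, ip]
    exact dotProduct_comm _ _
  have hv : Orthonormal ℂ ((Set.range (Sum.inr : κ → ι ⊕ κ)).domRestrict v) := by
    rw [orthonormal_iff_ite]
    rintro ⟨_, x, rfl⟩ ⟨_, y, rfl⟩
    change inner ℂ (WithLp.toLp 2 (V x) : EuclideanSpace ℂ (ι ⊕ κ)) (WithLp.toLp 2 (V y)) = _
    rw [hin, hV]
    by_cases h : x = y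
    · subst h
      rw [if_pos rfl, if_pos rfl]
    · rw [if_neg h, if_neg]
      intro e
      exact h (Sum.inr_injective (congrArg Subtype.val e))
  obtain ⟨b, hb⟩ := hv.exists_orthonormalBasis_extension_of_card_eq (by simp)
  let B : Matrix (ι ⊕ κ) (ι ⊕ κ) ℂ := fun i j => b j i
  have hB : B ∈ unitaryGroup (ι ⊕ κ) ℂ := by
    rw [mem_unitaryGroup_iff', star_eq_conjTranspose]
    ext i j
    have h1 := orthonormal_iff_ite.1 b.orthonormal i j
    have h2 : inner ℂ (b i) (b j) = ip (fun k => b i k) (fun k => b j k) := hin _ _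
    rw [h2] at h1
    rw [Matrix.mul_apply, Matrix.one_apply, ← h1]
    rfl
  refine ⟨⟨B, hB⟩, fun x => ?_⟩
  rw [mulVec_single_one]
  funext i
  change b (Sum.inr x) i = _
  rw [hb (Sum.inr x) ⟨x, rfl⟩]
  rfl

/-! ### exact orthonormalisation -/

theorem exists_root {κ : Type} [Fintype κ] [DecidableEq κ] (G : Matrix κ κ ℂ)
    (hG : G.IsHermitian) (t : ℝ) (h : ‖G - 1‖ ≤ t) :
    ∃ R : Matrix κ κ ℂ, Rᴴ * R = ((1 + t : ℝ) : ℂ) • (1 : Matrix κ κ ℂ) - G := by
  open scoped MatrixOrder ComplexOrder in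
  have hH : (((1 + t : ℝ) : ℂ) • (1 : Matrix κ κ ℂ) - G).IsHermitian := by
    refine IsHermitian.sub ?_ hG
    rw [IsHermitian, conjTranspose_smul, conjTranspose_one]
    simp
  have hP : (((1 + t : ℝ) : ℂ) • (1 : Matrix κ κ ℂ) - G).PosSemidef := by
    refine PosSemidef.of_dotProduct_mulVec_nonneg hH fun x => ?_
    change 0 ≤ ip x _
    set H := ((1 + t : ℝ) : ℂ) • (1 : Matrix κ κ ℂ) - G with hHdef
    have e1 : star (ip x (H *ᵥ x)) = ip x (H *ᵥ x) := by
      rw [ip_conj, ip_mulVec]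
      congr 2
    rw [Complex.nonneg_iff]
    constructor
    · have e2 : H *ᵥ x = (t : ℂ) • x - (G - 1) *ᵥ x := by
        rw [hHdef, Matrix.sub_mulVec, Matrix.sub_mulVec, smul_mulVec, one_mulVec]
        push_cast
        rw [add_smul, one_smul]
        abel
      have e3 : ip x (H *ᵥ x) = t * nsq x - ip x ((G - 1) *ᵥ x) := by
        rw [e2, ip_sub_right]
        congr 1
        rw [ip, dotProduct_smul, smul_eq_mul]
        congr 1
        exact ip_self x
      rw [e3, Complex.sub_re]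
      have e4 : ((t : ℂ) * (nsq x : ℝ)).re = t * nsq x := by
        rw [← Complex.ofReal_mul, Complex.ofReal_re]
      rw [e4]
      have e5 : (ip x ((G - 1) *ᵥ x)).re ≤ t * nsq x := by
        refine (Complex.re_le_norm _).trans ((norm_ip_le _ _).trans ?_)
        have h1 := nsq_mulVec_le (G - 1) x
        have h2 : √(nsq ((G - 1) *ᵥ x)) ≤ ‖G - 1‖ * √(nsq x) := by
          rw [← Real.sqrt_sq (norm_nonneg (G - 1)), ← Real.sqrt_mul (sq_nonneg _)]
          exact Real.sqrt_le_sqrt h1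
        have h3 := Real.mul_self_sqrt (nsq_nonneg x)
        have h4 := Real.sqrt_nonneg (nsq x)
        calc √(nsq x) * √(nsq ((G - 1) *ᵥ x)) ≤ √(nsq x) * (‖G - 1‖ * √(nsq x)) :=
              mul_le_mul_of_nonneg_left h2 h4
          _ = ‖G - 1‖ * (√(nsq x) * √(nsq x)) := by ring
          _ ≤ t * nsq x := by
            rw [h3]
            exact mul_le_mul_of_nonneg_right h (nsq_nonneg x)
      linarith
    · have := congrArg Complex.im e1
      rw [Complex.star_def, Complex.conj_im] at this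
      linarith
  obtain ⟨R, hR⟩ := CStarAlgebra.nonneg_iff_eq_star_mul_self.mp hP.nonneg
  exact ⟨R, hR.symm⟩

end

end Pool.Agent.Helper98.MFH
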