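import Mathlib

/-!
# MFH: operator norms of matrices, permutation matrices, block diagonal unitaries
-/

set_option autoImplicit false
set_option linter.unusedSectionVars false

namespace Pool.Agent.Helper98.MFH

open Matrix Finset
open scoped Matrix.Norms.L2Operator

noncomputable section

variable {ι : Type} [Fintype ι] [DecidableEq ι]

/-- squared Euclidean norm -/
def nsq (v : ι → ℂ) : ℝ := ∑ i, ‖v i‖ ^ 2

theorem nsq_nonneg (v : ι → ℂ) : 0 ≤ nsq v := sum_nonneg fun _ _ => by positivity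

theorem norm_toLp (v : ι → ℂ) : ‖(WithLp.toLp 2 v : EuclideanSpace ℂ ι)‖ = √(nsq v) := by
  rw [EuclideanSpace.norm_eq]; rfl

theorem norm_le_of {X : Matrix ι ι ℂ} {c : ℝ} (hc : 0 ≤ c)
    (h : ∀ v : ι → ℂ, nsq (X *ᵥ v) ≤ c ^ 2 * nsq v) : ‖X‖ ≤ c := by
  rw [cstar_norm_def]
  refine ContinuousLinearMap.opNorm_le_bound _ hc fun x => ?_
  have h1 := h (WithLp.ofLp x)
  have e1 : ‖(toEuclideanCLM (n := ι) (𝕜 := ℂ) X) x‖ = √(nsq (X *ᵥ WithLp.ofLp x)) := by
    rw [EuclideanSpace.norm_eq, ofLp_toEuclideanCLM]; rfl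
  have e2 : ‖x‖ = √(nsq (WithLp.ofLp x)) := by rw [EuclideanSpace.norm_eq]; rfl
  rw [e1, e2]
  calc √(nsq (X *ᵥ WithLp.ofLp x)) ≤ √(c ^ 2 * nsq (WithLp.ofLp x)) := Real.sqrt_le_sqrt h1
    _ = c * √(nsq (WithLp.ofLp x)) := by rw [Real.sqrt_mul (sq_nonneg c), Real.sqrt_sq hc]

theorem nsq_mulVec_le (X : Matrix ι ι ℂ) (v : ι → ℂ) : nsq (X *ᵥ v) ≤ ‖X‖ ^ 2 * nsq v := by
  have h := ContinuousLinearMap.le_opNorm (toEuclideanCLM (n := ι) (𝕜 := ℂ) X) (WithLp.toLp 2 v)
  rw [← cstar_norm_def] at h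
  have e1 : ‖(toEuclideanCLM (n := ι) (𝕜 := ℂ) X) (WithLp.toLp 2 v)‖ = √(nsq (X *ᵥ v)) := by
    rw [EuclideanSpace.norm_eq, ofLp_toEuclideanCLM]; rfl
  rw [e1, norm_toLp] at h
  have h2 := pow_le_pow_left₀ (Real.sqrt_nonneg _) h 2
  rwa [Real.sq_sqrt (nsq_nonneg _), mul_pow, Real.sq_sqrt (nsq_nonneg _)] at h2

theorem one_le_norm {X : Matrix ι ι ℂ} (v : ι → ℂ) (hv : 0 < nsq v) (h : nsq v ≤ nsq (X *ᵥ v)) :
    1 ≤ ‖X‖ := by
  have h1 := h.trans (nsq_mulVec_le X v)
  have h2 : 1 ≤ ‖X‖ ^ 2 := by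
    by_contra hc
    push Not at hc
    nlinarith
  by_contra hc
  push Not at hc
  have := norm_nonneg X
  nlinarith

theorem norm_unitary_le (u : unitaryGroup ι ℂ) : ‖u.1‖ ≤ 1 := by
  refine norm_le_of zero_le_one fun v => ?_
  rw [one_pow, one_mul]
  have h : nsq (u.1 *ᵥ v) = nsq v := by
    have hh : ∀ w : ι → ℂ, (nsq w : ℂ) = star w ⬝ᵥ w := by
      intro w
      rw [nsq, dotProduct]
      push_cast
      refine sum_congr rfl fun i _ => ?_
      rw [Pi.star_apply, ← Complex.conj_mul']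
      rfl
    have h2 : ((nsq (u.1 *ᵥ v) : ℝ) : ℂ) = nsq v := by
      rw [hh, hh, star_mulVec, dotProduct_mulVec, vecMul_vecMul]
      have h3 : (u.1)ᴴ * u.1 = 1 := by
        have := mem_unitaryGroup_iff'.1 u.2
        exact this
      rw [h3, vecMul_one]
    exact_mod_cast h2
  exact h.le

theorem norm_mul_u (u : unitaryGroup ι ℂ) (X : Matrix ι ι ℂ) : ‖u.1 * X‖ ≤ ‖X‖ :=
  (norm_mul_le _ _).trans (mul_le_of_le_one_left (norm_nonneg _) (norm_unitary_le u))

theorem norm_u_mul (X : Matrix ι ι ℂ) (u : unitaryGroup ι ℂ) : ‖X * u.1‖ ≤ ‖X‖ :=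
  (norm_mul_le _ _).trans (mul_le_of_le_one_right (norm_nonneg _) (norm_unitary_le u))

/-- distance of unitaries -/
def ds (u v : unitaryGroup ι ℂ) : ℝ := ‖u.1 - v.1‖

theorem ds_nonneg (u v : unitaryGroup ι ℂ) : 0 ≤ ds u v := norm_nonneg _

theorem ds_self (u : unitaryGroup ι ℂ) : ds u u = 0 := by simp [ds]

theorem ds_comm (u v : unitaryGroup ι ℂ) : ds u v = ds v u := norm_sub_rev _ _

theorem ds_tri (u v w : unitaryGroup ι ℂ) : ds u w ≤ ds u v + ds v w := by
  unfold ds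
  have : u.1 - w.1 = (u.1 - v.1) + (v.1 - w.1) := by abel
  rw [this]
  exact norm_add_le _ _

theorem ds_mul (u v u' v' : unitaryGroup ι ℂ) : ds (u * v) (u' * v') ≤ ds u u' + ds v v' := by
  unfold ds
  have : (u * v).1 - (u' * v').1 = (u.1 - u'.1) * v.1 + u'.1 * (v.1 - v'.1) := by
    rw [UnitaryGroup.mul_val, UnitaryGroup.mul_val, Matrix.sub_mul, Matrix.mul_sub]
    abel
  rw [this]
  exact (norm_add_le _ _).trans (add_le_add (norm_u_mul _ _) (norm_mul_u _ _))

theorem ds_inv (u v : unitaryGroup ι ℂ) : ds u⁻¹ v⁻¹ = ds u v := by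
  unfold ds
  have h : ∀ w : unitaryGroup ι ℂ, (w⁻¹).1 = (w.1)ᴴ := fun w => rfl
  rw [h, h, ← conjTranspose_sub, l2_opNorm_conjTranspose]

theorem ds_mul_left (a u v : unitaryGroup ι ℂ) : ds (a * u) (a * v) ≤ ds u v := by
  have := ds_mul a u a v
  rwa [ds_self, zero_add] at this

theorem ds_mul_right (u v a : unitaryGroup ι ℂ) : ds (u * a) (v * a) ≤ ds u v := by
  have := ds_mul u a v a
  rwa [ds_self, add_zero] at this

/-- words in nearby unitaries -/
theorem ds_lift {α : Type} [DecidableEq α] (X Y : α → unitaryGroup ι ℂ) (ε : ℝ) (w : FreeGroup α)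
    (h : ∀ x ∈ w.toWord, ds (X x.1) (Y x.1) ≤ ε) :
    ds (FreeGroup.lift X w) (FreeGroup.lift Y w) ≤ w.toWord.length * ε := by
  classical
  have key : ∀ L : List (α × Bool), (∀ x ∈ L, ds (X x.1) (Y x.1) ≤ ε) →
      ds (FreeGroup.lift X (FreeGroup.mk L)) (FreeGroup.lift Y (FreeGroup.mk L)) ≤
        L.length * ε := by
    intro L
    induction L with
    | nil => 
      intro _
      simp only [FreeGroup.lift_mk, List.map_nil, List.prod_nil, List.length_nil, Nat.cast_zero, zero_mul]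
      exact (ds_self _).le
    | cons a L ih =>
      intro h
      have h1 := ih fun x hx => h x (List.mem_cons_of_mem _ hx)
      have h2 := h a List.mem_cons_self
      simp only [FreeGroup.lift_mk, List.map_cons, List.prod_cons, List.length_cons] at h1 ⊢
      refine (ds_mul _ _ _ _).trans ?_
      have h3 : ds (cond a.2 (X a.1) (X a.1)⁻¹) (cond a.2 (Y a.1) (Y a.1)⁻¹) ≤ ε := by
        cases a.2
        · simpa [ds_inv] using h2
        · simpa using h2
      push_cast
      linarith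
  have := key w.toWord h
  rwa [FreeGroup.mk_toWord] at this

theorem ds_prod {α : Type} (l : List α) (X Y : α → unitaryGroup ι ℂ) (ε : ℝ)
    (h : ∀ x ∈ l, ds (X x) (Y x) ≤ ε) :
    ds (l.map X).prod (l.map Y).prod ≤ l.length * ε := by
  induction l with
  | nil => simp [ds_self]
  | cons a l ih =>
    have h1 := ih fun x hx => h x (List.mem_cons_of_mem _ hx)
    have h2 := h a List.mem_cons_self
    simp only [List.map_cons, List.prod_cons, List.length_cons]
    refine (ds_mul _ _ _ _).trans ?_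
    push_cast
    linarith

theorem prod_single {α M : Type} [Monoid M] (l : List α) (f : α → M) (c : α) (hc : c ∈ l)
    (hl : l.Nodup) (h : ∀ x ∈ l, x ≠ c → f x = 1) : (l.map f).prod = f c := by
  induction l with
  | nil => exact absurd hc List.not_mem_nil
  | cons a l ih =>
    rw [List.map_cons, List.prod_cons]
    rw [List.nodup_cons] at hl
    rcases List.mem_cons.1 hc with rfl | hc
    · have : (l.map f).prod = 1 := by
        apply List.prod_eq_one
        intro y hy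
        obtain ⟨x, hx, rfl⟩ := List.mem_map.1 hy
        refine h x (List.mem_cons_of_mem _ hx) ?_
        rintro rfl
        exact hl.1 hx
      rw [this, mul_one]
    · have hac : a ≠ c := by rintro rfl; exact hl.1 hc
      rw [h a List.mem_cons_self hac, one_mul]
      exact ih hc hl.2 fun x hx => h x (List.mem_cons_of_mem _ hx)

/-! ### permutation matrices -/

/-- the permutation matrix of `σ` -/
def pm (σ : Equiv.Perm ι) : Matrix ι ι ℂ := fun a b => if a = σ b then 1 else 0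

theorem pm_mul (σ τ : Equiv.Perm ι) : pm σ * pm τ = pm (σ * τ) := by
  ext a b
  rw [Matrix.mul_apply]
  simp only [pm, ite_mul, one_mul, zero_mul, Equiv.Perm.mul_apply]
  rw [Finset.sum_eq_single (τ b)]
  · by_cases h : a = σ (τ b) <;> simp [h]
  · intro c _ hc
    rw [if_neg hc]; simp
  · simp

theorem pm_one : pm (1 : Equiv.Perm ι) = 1 := by
  ext a b
  by_cases h : a = b <;> simp [pm, Matrix.one_apply, h]

theorem pm_star (σ : Equiv.Perm ι) : (pm σ)ᴴ = pm σ⁻¹ := by
  ext a b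
  rw [conjTranspose_apply]
  simp only [pm]
  have : (b = σ a) ↔ (a = σ⁻¹ b) := by
    rw [Equiv.Perm.eq_inv_iff_eq, eq_comm]
  simp only [this]
  split_ifs <;> simp

theorem pm_mulVec (σ : Equiv.Perm ι) (v : ι → ℂ) (i : ι) : (pm σ *ᵥ v) i = v (σ⁻¹ i) := by
  rw [mulVec, dotProduct]
  simp only [pm, ite_mul, one_mul, zero_mul]
  rw [Finset.sum_eq_single (σ⁻¹ i)]
  · simp
  · intro b _ hb
    rw [if_neg]
    rintro rfl
    simp at hb
  · simp

/-- permutation matrices as unitaries -/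
def PM : Equiv.Perm ι →* unitaryGroup ι ℂ where
  toFun σ := ⟨pm σ, by
    rw [mem_unitaryGroup_iff, star_eq_conjTranspose, pm_star, pm_mul, mul_inv_cancel, pm_one]⟩
  map_one' := Subtype.ext pm_one
  map_mul' σ τ := Subtype.ext (by rw [UnitaryGroup.mul_val]; exact (pm_mul σ τ).symm)

/-- A permutation matrix of a permutation which moves a point is far from the identity. -/
theorem pm_sub_one (σ : Equiv.Perm ι) (x : ι) (h : σ x ≠ x) : 1 ≤ ‖pm σ - 1‖ := by
  have hs : nsq (Pi.single x (1 : ℂ)) = 1 := by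
    rw [nsq, Finset.sum_eq_single x]
    · simp
    · intro b _ hb
      rw [Pi.single_eq_of_ne hb]; simp
    · simp
  refine one_le_norm (Pi.single x 1) (by rw [hs]; exact one_pos) ?_
  rw [hs, nsq]
  have h1 : ‖((pm σ - 1) *ᵥ (Pi.single x 1)) x‖ ^ 2 = 1 := by
    rw [Matrix.sub_mulVec, Pi.sub_apply, pm_mulVec, Matrix.one_mulVec, Pi.single_eq_same,
      Pi.single_eq_of_ne]
    · simp
    · intro h2
      apply h
      rw [Equiv.Perm.inv_eq_iff_eq] at h2
      exact h2.symm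
  calc (1 : ℝ) = ‖((pm σ - 1) *ᵥ (Pi.single x 1)) x‖ ^ 2 := h1.symm
    _ ≤ _ := Finset.single_le_sum (f := fun i => ‖((pm σ - 1) *ᵥ (Pi.single x (1 : ℂ))) i‖ ^ 2)
        (fun i _ => by positivity) (mem_univ x)

end

end Pool.Agent.Helper98.MFH
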