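import Pool.Agent.Helper98.MFH.Ht
import Pool.Agent.Helper98.MFH.Ch
import Pool.Agent.Helper87.WS.Hnn

/-!
# MFH: HNN extensions and doubles of residually finite groups are MF
-/

set_option autoImplicit false
set_option linter.unusedSectionVars false

namespace Pool.Agent.Helper98.MFH

open Matrix Finset
open Pool.Agent.Helper87.WS (fgAct fgAct_of SS rf_freeGroup)

noncomputable section

theorem chain_near {ι : Type} [Fintype ι] [DecidableEq ι] (v : ℕ → unitaryGroup ι ℂ) {ε : ℝ}
    (hε : 0 ≤ ε) (h : ∀ i, ds (v i) (v (i + 1)) ≤ ε) {a b : ℕ} (h1 : a ≤ b + 1) (h2 : b ≤ a + 1) :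
    ds (v a) (v b) ≤ ε := by
  rcases (by omega : a = b ∨ a = b + 1 ∨ b = a + 1) with rfl | rfl | rfl
  · rw [ds_self]; exact hε
  · rw [ds_comm]; exact h b
  · exact h a

theorem lift_pi {α P U : Type} [Group U] (T : α → P → U) (w : FreeGroup α) (y : P) :
    FreeGroup.lift T w y = FreeGroup.lift (fun c => T c y) w := by
  have : (Pi.evalMonoidHom (fun _ : P => U) y).comp (FreeGroup.lift T) =
      FreeGroup.lift fun c => T c y := by
    apply FreeGroup.ext_hom
    intro c
    simp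
  exact congrArg (fun f : FreeGroup α →* U => f w) this

theorem arith_eps (a M c : ℕ) (ε : ℝ) (hε : 0 < ε) (h : a ≤ M) :
    (a : ℝ) * (c * (ε / ((M + 1) * (c + 1)))) ≤ ε := by
  have h1 : (a : ℝ) ≤ M := by exact_mod_cast h
  have h2 : (0 : ℝ) ≤ a := Nat.cast_nonneg a
  have h3 : (0 : ℝ) ≤ c := Nat.cast_nonneg c
  have h4 : (a : ℝ) * (c * (ε / ((M + 1) * (c + 1)))) = ε * (a / (M + 1)) * (c / (c + 1)) := by
    field_simp
  rw [h4]
  have h5 : (a : ℝ) / (M + 1) ≤ 1 := by
    rw [div_le_one (by linarith)]; linarith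
  have h6 : (c : ℝ) / (c + 1) ≤ 1 := by
    rw [div_le_one (by linarith)]; linarith
  have h7 : (0 : ℝ) ≤ c / (c + 1) := by positivity
  calc ε * ((a : ℝ) / (M + 1)) * (c / (c + 1)) ≤ ε * 1 * 1 := by gcongr
    _ = ε := by ring

variable {Q : Type} [Group Q] (K : Subgroup Q)

theorem lift_act {U : Type} [Group U] (T : (Q ⧸ K) → U) (q : Q) (w : FreeGroup (Q ⧸ K)) :
    FreeGroup.lift T (fgAct K q w) = FreeGroup.lift (fun c => T (q • c)) w := by
  have : (FreeGroup.lift T).comp (fgAct K q).toMonoidHom =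
      FreeGroup.lift fun c => T (q • c) := by
    apply FreeGroup.ext_hom
    intro c
    change FreeGroup.lift T (fgAct K q (FreeGroup.of c)) = _
    rw [fgAct_of]
    simp
  exact congrArg (fun f : FreeGroup (Q ⧸ K) →* U => f w) this

theorem mf_SS (hQ : RFin Q) : IsMF (SS K) := by
  classical
  refine mf_semidirect (fgAct K) hQ fun A B ε hε w hw => ?_
  obtain ⟨H, iH, fH, f, hf⟩ := rf_freeGroup (Q ⧸ K) w hw
  have : Fintype H := Fintype.ofFinite H
  let G : H →* unitaryGroup H ℂ := PM.comp (MulAction.toPermHom H H)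
  set C : Finset (Q ⧸ K) := (w.toWord.map Prod.fst).toFinset with hC
  set CC : Finset (Q ⧸ K) := A.biUnion fun m => (m.toWord.map Prod.fst).toFinset with hCC
  set M : ℕ := A.sup fun m => m.toWord.length with hM
  set ε' : ℝ := ε / ((M + 1) * (#C + 1)) with hε'
  have hε0 : 0 < ε' := by positivity
  choose N v hv1 hv2 hv3 using fun c : Q ⧸ K => chn_perm (MulAction.toPermHom H H (f (FreeGroup.of c)))
    ε' hε0
  let rep : Q ⧸ K → Q := Quotient.out
  have hrep : ∀ c, (QuotientGroup.mk (rep c) : Q ⧸ K) = c := fun c => Quotient.out_eq c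
  let kk : Q × (Q ⧸ K) → Q := fun x => (rep (x.1 • x.2))⁻¹ * (x.1 * rep x.2)
  have hkk : ∀ x, kk x ∈ K := by
    intro x
    change (rep (x.1 • x.2))⁻¹ * (x.1 * rep x.2) ∈ K
    rw [← QuotientGroup.eq, hrep, ← smul_eq_mul, ← MulAction.Quotient.smul_mk, hrep]
  obtain ⟨P, iP, fP, π, h, hh1, hh2, hh3⟩ := heights hQ K ((B ×ˢ CC).image kk) (by
      intro s hs
      obtain ⟨x, _, rfl⟩ := mem_image.1 hs
      exact hkk x) C (fun c => (rep c)⁻¹) (by
      intro c _ c' _ hcc hmem
      rw [inv_inv, ← QuotientGroup.eq, hrep, hrep] at hmem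
      exact hcc hmem.symm) (C.sup N)
  have : Fintype P := Fintype.ofFinite P
  let T0 : P → unitaryGroup H ℂ := fun y => (C.toList.map fun c => v c (h c y)).prod
  have hT1 : ∀ s ∈ (B ×ˢ CC).image kk, ∀ y, ds (T0 y) (T0 ((π s)⁻¹ * y)) ≤ #C * ε' := by
    intro s hs y
    have h5 := ds_prod C.toList (fun c => v c (h c y)) (fun c => v c (h c ((π s)⁻¹ * y))) ε'
      fun c _ => chain_near (v c) hε0.le (hv3 c) (hh3 c s hs y).1 (hh3 c s hs y).2
    rwa [length_toList] at h5
  have hT2 : ∀ c ∈ C, T0 ((π (rep c))⁻¹ * 1) = G (f (FreeGroup.of c)) := by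
    intro c hc
    rw [mul_one, ← map_inv]
    change (C.toList.map fun c' => v c' (h c' (π (rep c)⁻¹))).prod = _
    rw [prod_single C.toList _ c (mem_toList.2 hc) C.nodup_toList]
    · rw [hh1 c, hv2 c _ (le_sup hc)]
      rfl
    · intro c' hc' hne
      rw [hh2 c' (mem_toList.1 hc') c hc hne, hv1]
  let T : (Q ⧸ K) → P → unitaryGroup H ℂ := fun c y => T0 ((π (rep c))⁻¹ * y)
  refine ⟨H, P, inferInstance, inferInstance, iP, inferInstance, inferInstance, π,
    FreeGroup.lift T, ?_, 1, ?_⟩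
  · intro q hq m hm y
    rw [lift_pi, lift_pi, lift_act K (fun c => T c y)]
    refine (ds_lift _ _ (#C * ε') m fun x hx => ?_).trans ?_
    · have hxc : x.1 ∈ CC := by
        rw [hCC, mem_biUnion]
        exact ⟨m, hm, List.mem_toFinset.2 (List.mem_map.2 ⟨x, hx, rfl⟩)⟩
      have h5 := hT1 (kk (q, x.1)) (mem_image_of_mem _ (mem_product.2 ⟨hq, hxc⟩))
        ((π (rep (q • x.1)))⁻¹ * y)
      have h6 : (π (kk (q, x.1)))⁻¹ * ((π (rep (q • x.1)))⁻¹ * y) =
          (π (rep x.1))⁻¹ * ((π q)⁻¹ * y) := by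
        simp only [kk, map_mul, map_inv]
        group
      rw [h6] at h5
      exact h5
    · exact arith_eps m.toWord.length M #C ε hε
        (le_sup (f := fun m : FreeGroup (Q ⧸ K) => m.toWord.length) hm)
  · rw [lift_pi]
    have h5 : ds (FreeGroup.lift (fun c => G (f (FreeGroup.of c))) w)
        (FreeGroup.lift (fun c => T c 1) w) ≤ w.toWord.length * 0 := by
      refine ds_lift _ _ 0 w fun x hx => ?_
      have hxc : x.1 ∈ C := by
        rw [hC]
        exact List.mem_toFinset.2 (List.mem_map.2 ⟨x, hx, rfl⟩)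
      have : T x.1 1 = G (f (FreeGroup.of x.1)) := hT2 _ hxc
      rw [this, ds_self]
    have h6 : FreeGroup.lift (fun c => G (f (FreeGroup.of c))) w = G (f w) := by
      have : FreeGroup.lift (fun c => G (f (FreeGroup.of c))) = G.comp f := by
        apply FreeGroup.ext_hom
        intro c
        simp
      rw [this]
      rfl
    have h7 : 1 ≤ ds (G (f w)) 1 := by
      refine pm_sub_one (MulAction.toPermHom H H (f w)) 1 ?_
      change f w * 1 ≠ 1
      rwa [mul_one]
    have h8 := ds_tri (G (f w)) (FreeGroup.lift (fun c => T c 1) w) 1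
    rw [h6, mul_zero] at h5
    linarith

end

end Pool.Agent.Helper98.MFH
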