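import Pool.Agent.Helper98.MFH.M3
import Pool.Agent.Helper98.MFH.SS

/-!
# MFH: HNN extensions and doubles of MF groups are MF
-/

set_option autoImplicit false
set_option linter.unusedSectionVars false

namespace Pool.Agent.Helper98.MFH

open Matrix Finset
open scoped Pointwise
open Pool.Agent.Helper87.WS (fgAct fgAct_of SS rf_freeGroup)

noncomputable section

theorem heightsQ {Q : Type} [Group Q] (K : Subgroup Q) (S0 : Finset Q)
    (hS0 : ∀ s ∈ S0, s ∈ K) {α : Type} (C : Finset α) (p : α → Q)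
    (hp : ∀ c ∈ C, ∀ c' ∈ C, c ≠ c' → p c' * (p c)⁻¹ ∉ K) (N : ℕ) :
    ∃ h : α → Q → ℕ, (∀ c, h c (p c) = N) ∧
      (∀ c ∈ C, ∀ c' ∈ C, c ≠ c' → h c (p c') = 0) ∧ (∀ c, {y | h c y ≠ 0}.Finite) ∧
      ∀ c, ∀ s ∈ S0, ∀ y, h c y ≤ h c (s⁻¹ * y) + 1 ∧ h c (s⁻¹ * y) ≤ h c y + 1 := by
  classical
  set S : Finset Q := insert 1 (S0 ∪ S0.image fun s => s⁻¹) with hS
  have hSK : ∀ s ∈ S, s ∈ K := by
    intro s hs
    rw [hS, mem_insert, mem_union, mem_image] at hs
    rcases hs with rfl | hs | ⟨t, ht, rfl⟩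
    · exact K.one_mem
    · exact hS0 s hs
    · exact K.inv_mem (hS0 t ht)
  have hpow : ∀ i, ∀ s ∈ S ^ i, s ∈ K := by
    intro i
    induction i with
    | zero =>
      intro s hs
      rw [pow_zero, mem_one] at hs
      rw [hs]
      exact K.one_mem
    | succ i ih =>
      intro s hs
      rw [pow_succ', mem_mul] at hs
      obtain ⟨a, ha, b, hb, rfl⟩ := hs
      exact K.mul_mem (hSK a ha) (ih b hb)
  have h1S : (1 : Q) ∈ S := mem_insert_self _ _
  refine ⟨fun c y => #{i ∈ range N | ∃ s ∈ S ^ i, s * p c = y}, ?_, ?_, ?_, ?_⟩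
  · intro c
    beta_reduce
    rw [filter_true_of_mem, card_range]
    intro i _
    refine ⟨1, ?_, one_mul _⟩
    clear * - h1S
    induction i with
    | zero => rw [pow_zero, mem_one]
    | succ i ih =>
      rw [pow_succ', mem_mul]
      exact ⟨1, h1S, 1, ih, mul_one 1⟩
  · intro c hc c' hc' hcc
    beta_reduce
    rw [card_eq_zero, filter_eq_empty_iff]
    rintro i _ ⟨s, hs, h3⟩
    apply hp c hc c' hc' hcc
    rw [← h3, mul_assoc, mul_inv_cancel, mul_one]
    exact hpow i s hs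
  · intro c
    refine ((((range N).biUnion fun i => S ^ i).image fun s => s * p c).finite_toSet).subset ?_
    intro y hy
    have hy' : #{i ∈ range N | ∃ s ∈ S ^ i, s * p c = y} ≠ 0 := hy
    rw [card_ne_zero] at hy'
    obtain ⟨i, hi⟩ := hy'
    rw [mem_filter] at hi
    obtain ⟨hi, s, hs, h3⟩ := hi
    exact mem_coe.2 (mem_image.2 ⟨s, mem_biUnion.2 ⟨i, hi, hs⟩, h3⟩)
  · intro c s hs y
    have key : ∀ t ∈ S, ∀ y z : Q, z = t * y →
        #{i ∈ range N | ∃ s ∈ S ^ i, s * p c = y} ≤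
          #{i ∈ range N | ∃ s ∈ S ^ i, s * p c = z} + 1 := by
      intro t ht y z hz
      refine count_le N _ _ fun i hi => ?_
      obtain ⟨s, hs, h3⟩ := hi
      refine ⟨t * s, ?_, ?_⟩
      · rw [pow_succ', mem_mul]
        exact ⟨t, ht, s, hs, rfl⟩
      · rw [mul_assoc, h3, hz]
    constructor
    · refine key s⁻¹ ?_ _ _ rfl
      rw [hS, mem_insert, mem_union, mem_image]
      exact Or.inr (Or.inr ⟨s, hs, rfl⟩)
    · refine key s ?_ _ _ ?_
      · rw [hS, mem_insert, mem_union]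
        exact Or.inr (Or.inl hs)
      · rw [mul_inv_cancel_left]

/-- the functions of finite support -/
def Sf (Q U : Type) [Group U] : Subgroup (Q → U) where
  carrier := {f | {y | f y ≠ 1}.Finite}
  one_mem' := by simp
  mul_mem' := fun {a b} ha hb => (ha.union hb).subset fun y hy => by
    by_contra hc
    have hc' : ¬ (a y ≠ 1 ∨ b y ≠ 1) := hc
    push Not at hc'
    apply hy
    rw [Pi.mul_apply, hc'.1, hc'.2, mul_one]
  inv_mem' := fun {a} ha => ha.subset fun y hy h => hy (by rw [Pi.inv_apply, h, inv_one])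

variable {Q : Type} [Group Q] (K : Subgroup Q)

theorem mf_SS' (hQ : IsMF Q) : IsMF (SS K) := by
  classical
  refine mf_semidirect' (fgAct K) hQ fun A B ε hε w hw => ?_
  obtain ⟨H, iH, fH, f, hf⟩ := rf_freeGroup (Q ⧸ K) w hw
  have : Fintype H := Fintype.ofFinite H
  let G : H →* unitaryGroup H ℂ := PM.comp (MulAction.toPermHom H H)
  set C : Finset (Q ⧸ K) := (w.toWord.map Prod.fst).toFinset with hC
  set CC : Finset (Q ⧸ K) := A.biUnion fun m => (m.toWord.map Prod.fst).toFinset with hCC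
  set M : ℕ := A.sup fun m => m.toWord.length with hM
  set ε' : ℝ := ε / ((M + 1) * (#C + 1)) with hε'
  have hε0 : 0 < ε' := by positivity
  choose N v hv1 hv2 hv3 using fun c : Q ⧸ K => chn_perm (MulAction.toPermHom H H (f (FreeGroup.of c)))
    ε' hε0
  let rep : Q ⧸ K → Q := Quotient.out
  have hrep : ∀ c, (QuotientGroup.mk (rep c) : Q ⧸ K) = c := fun c => Quotient.out_eq c
  let kk : Q × (Q ⧸ K) → Q := fun x => (rep (x.1 • x.2))⁻¹ * (x.1 * rep x.2)
  have hkk : ∀ x, kk x ∈ K := by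
    intro x
    change (rep (x.1 • x.2))⁻¹ * (x.1 * rep x.2) ∈ K
    rw [← QuotientGroup.eq, hrep, ← smul_eq_mul, ← MulAction.Quotient.smul_mk, hrep]
  obtain ⟨h, hh1, hh2, hh4, hh3⟩ := heightsQ K ((B ×ˢ CC).image kk) (by
      intro s hs
      obtain ⟨x, _, rfl⟩ := mem_image.1 hs
      exact hkk x) C (fun c => (rep c)⁻¹) (by
      intro c _ c' _ hcc hmem
      rw [inv_inv, ← QuotientGroup.eq, hrep, hrep] at hmem
      exact hcc hmem.symm) (C.sup N)
  let T0 : Q → unitaryGroup H ℂ := fun y => (C.toList.map fun c => v c (h c y)).prod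
  have hT0 : {y | T0 y ≠ 1}.Finite := by
    refine (C.finite_toSet.biUnion fun c _ => hh4 c).subset fun y hy => ?_
    rw [Set.mem_iUnion₂]
    by_contra hc
    push Not at hc
    apply hy
    apply List.prod_eq_one
    intro x hx
    obtain ⟨c, hcC, rfl⟩ := List.mem_map.1 hx
    have : h c y = 0 := by
      by_contra h0
      exact hc c (mem_toList.1 hcC) h0
    rw [this, hv1]
  have hT1 : ∀ s ∈ (B ×ˢ CC).image kk, ∀ y, ds (T0 y) (T0 (s⁻¹ * y)) ≤ #C * ε' := by
    intro s hs y
    have h5 := ds_prod C.toList (fun c => v c (h c y)) (fun c => v c (h c (s⁻¹ * y))) ε'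
      fun c _ => chain_near (v c) hε0.le (hv3 c) (hh3 c s hs y).1 (hh3 c s hs y).2
    rwa [length_toList] at h5
  have hT2 : ∀ c ∈ C, T0 ((rep c)⁻¹ * 1) = G (f (FreeGroup.of c)) := by
    intro c hc
    rw [mul_one]
    change (C.toList.map fun c' => v c' (h c' (rep c)⁻¹)).prod = _
    rw [prod_single C.toList _ c (mem_toList.2 hc) C.nodup_toList]
    · rw [hh1 c, hv2 c _ (le_sup hc)]
      rfl
    · intro c' hc' hne
      rw [hh2 c' (mem_toList.1 hc') c hc hne, hv1]
  let T : (Q ⧸ K) → Q → unitaryGroup H ℂ := fun c y => T0 ((rep c)⁻¹ * y)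
  refine ⟨H, inferInstance, inferInstance, FreeGroup.lift T, ?_, ?_, ?_⟩
  · intro m
    have hr : (FreeGroup.lift T).range ≤ Sf Q (unitaryGroup H ℂ) := by
      refine FreeGroup.range_lift_le ?_
      rintro _ ⟨c, rfl⟩
      have := hT0.image fun y => rep c * y
      refine this.subset fun y hy => ⟨(rep c)⁻¹ * y, hy, mul_inv_cancel_left _ _⟩
    exact hr ⟨m, rfl⟩
  · intro q hq m hm y
    rw [lift_pi, lift_pi, lift_act K (fun c => T c y)]
    refine (ds_lift _ _ (#C * ε') m fun x hx => ?_).trans ?_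
    · have hxc : x.1 ∈ CC := by
        rw [hCC, mem_biUnion]
        exact ⟨m, hm, List.mem_toFinset.2 (List.mem_map.2 ⟨x, hx, rfl⟩)⟩
      have h5 := hT1 (kk (q, x.1)) (mem_image_of_mem _ (mem_product.2 ⟨hq, hxc⟩))
        ((rep (q • x.1))⁻¹ * y)
      have h6 : (kk (q, x.1))⁻¹ * ((rep (q • x.1))⁻¹ * y) = (rep x.1)⁻¹ * (q⁻¹ * y) := by
        simp only [kk]
        group
      rw [h6] at h5
      exact h5
    · exact arith_eps m.toWord.length M #C ε hε
        (le_sup (f := fun m : FreeGroup (Q ⧸ K) => m.toWord.length) hm)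
  · rw [lift_pi]
    have h5 : ds (FreeGroup.lift (fun c => G (f (FreeGroup.of c))) w)
        (FreeGroup.lift (fun c => T c 1) w) ≤ w.toWord.length * 0 := by
      refine ds_lift _ _ 0 w fun x hx => ?_
      have hxc : x.1 ∈ C := by
        rw [hC]
        exact List.mem_toFinset.2 (List.mem_map.2 ⟨x, hx, rfl⟩)
      have : T x.1 1 = G (f (FreeGroup.of x.1)) := hT2 _ hxc
      rw [this, ds_self]
    have h6 : FreeGroup.lift (fun c => G (f (FreeGroup.of c))) w = G (f w) := by
      have : FreeGroup.lift (fun c => G (f (FreeGroup.of c))) = G.comp f := by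
        apply FreeGroup.ext_hom
        intro c
        simp
      rw [this]
      rfl
    have h7 : 1 ≤ ds (G (f w)) 1 := by
      refine pm_sub_one (MulAction.toPermHom H H (f w)) 1 ?_
      change f w * 1 ≠ 1
      rwa [mul_one]
    have h8 := ds_tri (G (f w)) (FreeGroup.lift (fun c => T c 1) w) 1
    rw [h6, mul_zero] at h5
    linarith

/-- **The HNN extension of an MF group with the identity of a subgroup is MF.** -/
theorem mf_hnn (hQ : IsMF Q) : IsMF (HNNExtension Q K K (MulEquiv.refl K)) :=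
  mf_inj (Pool.Agent.Helper87.WS.fH K) (Pool.Agent.Helper87.WS.fH_injective K) (mf_SS' K hQ)

/-- **The double of an MF group over a subgroup is MF.** -/
theorem mf_double (hQ : IsMF Q) : IsMF (Monoid.PushoutI (fun _ : Fin 2 => K.subtype)) :=
  mf_inj (Pool.Agent.Helper87.WS.fD K) (Pool.Agent.Helper87.WS.fD_injective K) (mf_SS' K hQ)

/-- Residually finite groups are MF. -/
theorem mf_rf {Q : Type} [Group Q] (h : RFin Q) : IsMF Q := by
  classical
  refine mf_of fun A ε hε g hg => ?_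
  obtain ⟨P, i3, i4, π, hπ⟩ := h g hg
  have : Fintype P := Fintype.ofFinite P
  refine ⟨Unit × P, inferInstance, inferInstance, fun x => Lam Unit (π x), ?_, ?_, ?_⟩
  · simp
  · intro a _ b _
    beta_reduce
    rw [map_mul, map_mul, ds_self]
    exact hε.le
  · have := one_le_ds_Lam (β := Unit) (π g) hπ 1 rfl
    rwa [map_one, one_mul] at this

end

end Pool.Agent.Helper98.MFH
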