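import Pool.Agent.Helper98.MFH.Kr

/-!
# MFH: an MF group has approximations with a vector all of whose coefficients are small
-/

set_option autoImplicit false
set_option linter.unusedSectionVars false

namespace Pool.Agent.Helper98.MFH

open Matrix Finset
open scoped Matrix.Norms.L2Operator

noncomputable section

variable {Q : Type} [Group Q]

/-- approximations with a unit vector with coefficients bounded by `f` -/
def Pos (f : Q → ℝ) : Prop :=
  ∀ (A : Finset Q) (ε : ℝ), 0 < ε → ∃ (ι : Type) (_ : Fintype ι) (_ : DecidableEq ι)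
    (φ : Q → unitaryGroup ι ℂ) (ξ : ι → ℂ), φ 1 = 1 ∧
      (∀ a ∈ A, ∀ b ∈ A, ds (φ (a * b)) (φ a * φ b) ≤ ε) ∧ nsq ξ = 1 ∧
        ∀ a ∈ A, ‖cf (φ a) ξ‖ ≤ f a

theorem Pos.one : Pos (fun _ : Q => (1 : ℝ)) := by
  intro A ε hε
  refine ⟨Unit, inferInstance, inferInstance, fun _ => 1, fun _ => 1, rfl, ?_, ?_, ?_⟩
  · intro a _ b _
    rw [mul_one, ds_self]
    exact hε.le
  · simp [nsq]
  · intro a _
    exact norm_cf_le _ (by simp [nsq])

theorem Pos.mul {f g : Q → ℝ} (hf : Pos f) (hg : Pos g) (hf0 : ∀ q, 0 ≤ f q) :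
    Pos (fun q => f q * g q) := by
  intro A ε hε
  obtain ⟨ι, i1, i2, φ, ξ, h1, h2, h3, h4⟩ := hf A (ε / 2) (half_pos hε)
  obtain ⟨κ, j1, j2, ψ, ζ, k1, k2, k3, k4⟩ := hg A (ε / 2) (half_pos hε)
  refine ⟨ι × κ, inferInstance, inferInstance, fun q => UK (φ q) (ψ q), tv ξ ζ, ?_, ?_, ?_, ?_⟩
  · beta_reduce
    rw [h1, k1, UK_one]
  · intro a ha b hb
    beta_reduce
    rw [← UK_mul]
    refine (ds_UK _ _ _ _).trans ?_
    linarith [h2 a ha b hb, k2 a ha b hb]
  · rw [nsq_tv, h3, k3, one_mul]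
  · intro a ha
    rw [cf_UK, norm_mul]
    exact mul_le_mul (h4 a ha) (k4 a ha) (norm_nonneg _) (hf0 a)

theorem nsq_smul {ι : Type} [Fintype ι] (c : ℂ) (v : ι → ℂ) : nsq (c • v) = ‖c‖ ^ 2 * nsq v := by
  rw [nsq, nsq, mul_sum]
  refine sum_congr rfl fun i _ => ?_
  rw [Pi.smul_apply, smul_eq_mul, norm_mul, mul_pow]

theorem exists_vec {ι : Type} [Fintype ι] [DecidableEq ι] (X : Matrix ι ι ℂ) (h : 1 ≤ ‖X‖) :
    ∃ v : ι → ℂ, nsq v = 1 ∧ 1 / 2 ≤ nsq (X *ᵥ v) := by
  by_contra hc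
  push Not at hc
  have h1 : ‖X‖ ≤ √(1 / 2) := by
    refine norm_le_of (Real.sqrt_nonneg _) fun v => ?_
    rw [Real.sq_sqrt (by norm_num)]
    rcases (nsq_nonneg v).eq_or_lt with h0 | h0
    · have : X *ᵥ v = 0 := by
        have hv : v = 0 := by
          funext i
          have h2 := (sum_eq_zero_iff_of_nonneg (fun i _ => by positivity)).1 h0.symm i (mem_univ i)
          simpa using h2
        rw [hv, mulVec_zero]
      rw [this, ← h0]
      simp [nsq]
    · have h2 : nsq (((1 / √(nsq v) : ℝ) : ℂ) • v) = 1 := by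
        rw [nsq_smul, Complex.norm_real, Real.norm_eq_abs, sq_abs, div_pow, one_pow,
          Real.sq_sqrt h0.le]
        field_simp
      have h3 := hc _ h2
      rw [mulVec_smul, nsq_smul, Complex.norm_real, Real.norm_eq_abs, sq_abs, div_pow, one_pow,
        Real.sq_sqrt h0.le] at h3
      have h4 : nsq (X *ᵥ v) = nsq v * (1 / nsq v * nsq (X *ᵥ v)) := by field_simp
      rw [h4]
      nlinarith
  have h2 : √(1 / 2 : ℝ) < 1 := by
    rw [Real.sqrt_lt' one_pos]
    norm_num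
  linarith

theorem cf_BD {β P : Type} [Fintype β] [DecidableEq β] [Fintype P] [DecidableEq P]
    (F : P → unitaryGroup β ℂ) (ξ : β × P → ℂ) :
    cf (BD F) ξ = ∑ p, cf (F p) fun b => ξ (b, p) := by
  simp only [cf, ip, dotProduct]
  rw [Fintype.sum_prod_type_right]
  refine sum_congr rfl fun p _ => sum_congr rfl fun b _ => ?_
  have := bd_mulVec (fun p => (F p).1) ξ b p
  change _ * (blockDiagonal (fun p => (F p).1) *ᵥ ξ) (b, p) = _
  rw [this]
  rfl

theorem cf_smul {ι : Type} [Fintype ι] [DecidableEq ι] (u : unitaryGroup ι ℂ) (c : ℝ)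
    (v : ι → ℂ) : cf u ((c : ℂ) • v) = c ^ 2 * cf u v := by
  simp only [cf, ip, mulVec_smul, dotProduct_smul, star_smul, smul_dotProduct, smul_eq_mul]
  simp only [Complex.star_def, Complex.conj_ofReal]
  ring

theorem re_cf {ι : Type} [Fintype ι] [DecidableEq ι] (u : unitaryGroup ι ℂ) (v : ι → ℂ)
    (hv : nsq v = 1) : nsq ((u.1 - 1) *ᵥ v) = 2 - 2 * (cf u v).re := by
  have h1 : ((nsq ((u.1 - 1) *ᵥ v) : ℝ) : ℂ) = 2 - (cf u v + star (cf u v)) := by
    rw [← ip_self, Matrix.sub_mulVec, one_mulVec, cf, ip_conj]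
    have e1 : ip (u.1 *ᵥ v - v) (u.1 *ᵥ v - v) = ip (u.1 *ᵥ v) (u.1 *ᵥ v) + ip v v -
        (ip v (u.1 *ᵥ v) + ip (u.1 *ᵥ v) v) := by
      simp only [ip, star_sub, sub_dotProduct, dotProduct_sub]
      ring
    rw [e1, ip_self, ip_self, nsq_unitary, hv]
    norm_num
  have h2 : cf u v + star (cf u v) = ((2 * (cf u v).re : ℝ) : ℂ) := by
    rw [Complex.star_def, Complex.add_conj]
  rw [h2] at h1
  have h3 : ((nsq ((u.1 - 1) *ᵥ v) : ℝ) : ℂ) = ((2 - 2 * (cf u v).re : ℝ) : ℂ) := by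
    rw [h1]; push_cast; ring
  exact_mod_cast h3

theorem Pos.base (hQ : IsMF Q) [DecidableEq Q] {a : Q} (ha : a ≠ 1) :
    Pos (fun q => if q = a then 19 / 20 else 1) := by
  intro A ε hε
  obtain ⟨n, φ, h1, h2, h3⟩ := hQ (insert a A) ε hε
  have ha1 := h3 a (mem_insert_self _ _) ha
  obtain ⟨v, hv1, hv2⟩ := exists_vec ((φ a).1 - 1) ha1
  let ξ : Fin n × Bool → ℂ := fun x => ((√(1 / 2 : ℝ) : ℝ) : ℂ) * v x.1
  have hξ : nsq ξ = 1 := by
    rw [nsq_prod]
    have : ∀ p : Bool, nsq (fun b => ξ (b, p)) = 1 / 2 := by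
      intro p
      change nsq (((√(1 / 2 : ℝ) : ℝ) : ℂ) • v) = _
      rw [nsq_smul, hv1, mul_one, Complex.norm_real, Real.norm_eq_abs, sq_abs, Real.sq_sqrt]
      norm_num
    simp only [this]
    simp
  refine ⟨Fin n × Bool, inferInstance, inferInstance,
    fun q => BD fun b => if b then φ q else 1, ξ, ?_, ?_, hξ, ?_⟩
  · beta_reduce
    rw [h1]
    simp only [ite_self]
    exact map_one BD
  · intro x hx y hy
    beta_reduce
    rw [← map_mul]
    refine ds_BD hε.le fun b => ?_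
    cases b
    · simpa [ds_self] using hε.le
    · simpa using (h2 x (mem_insert_of_mem hx) y (mem_insert_of_mem hy)).le
  · intro q _
    beta_reduce
    split_ifs with hq
    · rw [hq, cf_BD]
      have e1 : ∀ u : unitaryGroup (Fin n) ℂ, ∀ p : Bool, cf u (fun b => ξ (b, p)) =
          1 / 2 * cf u v := by
        intro u p
        change cf u (((√(1 / 2 : ℝ) : ℝ) : ℂ) • v) = _
        rw [cf_smul]
        congr 1
        have : (√(1 / 2 : ℝ)) ^ 2 = 1 / 2 := Real.sq_sqrt (by norm_num)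
        rw [← Complex.ofReal_pow, this]
        norm_num
      simp only [Fintype.sum_bool, e1]
      have e2 : cf (1 : unitaryGroup (Fin n) ℂ) v = 1 := by
        rw [cf]
        change ip v ((1 : Matrix (Fin n) (Fin n) ℂ) *ᵥ v) = 1
        rw [one_mulVec, ip_self, hv1]
        simp
      simp only [if_true, Bool.false_eq_true, if_false, e2, mul_one]
      have h4 := norm_cf_le (φ a) hv1
      have h5 := re_cf (φ a) v hv1
      rw [h5] at hv2
      set z := cf (φ a) v with hz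
      have h6 : ‖1 / 2 * z + 1 / 2‖ ^ 2 ≤ (19 / 20) ^ 2 := by
        rw [← Complex.normSq_eq_norm_sq, Complex.normSq_apply]
        have h7 : ‖z‖ ^ 2 ≤ 1 := by
          have := norm_nonneg z
          nlinarith
        rw [← Complex.normSq_eq_norm_sq, Complex.normSq_apply] at h7
        simp only [Complex.add_re, Complex.add_im, Complex.mul_re, Complex.mul_im]
        norm_num
        nlinarith
      exact (abs_le_of_sq_le_sq' h6 (by norm_num)).2
    · exact norm_cf_le _ hξ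

theorem Pos.pow (hQ : IsMF Q) [DecidableEq Q] {a : Q} (ha : a ≠ 1) (k : ℕ) :
    Pos (fun q => if q = a then (19 / 20 : ℝ) ^ k else 1) := by
  induction k with
  | zero =>
    have : (fun q : Q => if q = a then (19 / 20 : ℝ) ^ 0 else 1) = fun _ => 1 := by
      funext q
      split_ifs <;> simp
    rw [this]
    exact Pos.one
  | succ k ih =>
    have : (fun q : Q => if q = a then (19 / 20 : ℝ) ^ (k + 1) else 1) =
        fun q => (if q = a then (19 / 20 : ℝ) ^ k else 1) * (if q = a then 19 / 20 else 1) := by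
      funext q
      split_ifs
      · rw [pow_succ]
      · rw [mul_one]
    rw [this]
    exact ih.mul (Pos.base hQ ha) fun q => by split_ifs <;> positivity

theorem Pos.finset (hQ : IsMF Q) [DecidableEq Q] (k : ℕ) (D : Finset Q) :
    Pos (fun q => if q ∈ D ∧ q ≠ 1 then (19 / 20 : ℝ) ^ k else 1) := by
  induction D using Finset.induction_on with
  | empty => simpa using Pos.one
  | insert a D haD ih =>
    by_cases ha : a = 1
    · have : (fun q : Q => if q ∈ insert a D ∧ q ≠ 1 then (19 / 20 : ℝ) ^ k else 1) =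
          fun q => if q ∈ D ∧ q ≠ 1 then (19 / 20 : ℝ) ^ k else 1 := by
        funext q
        have : (q ∈ insert a D ∧ q ≠ 1) ↔ (q ∈ D ∧ q ≠ 1) := by
          rw [mem_insert, ha]
          tauto
        simp only [this]
      rw [this]
      exact ih
    · have : (fun q : Q => if q ∈ insert a D ∧ q ≠ 1 then (19 / 20 : ℝ) ^ k else 1) =
          fun q => (if q ∈ D ∧ q ≠ 1 then (19 / 20 : ℝ) ^ k else 1) *
            (if q = a then (19 / 20 : ℝ) ^ k else 1) := by
        funext q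
        by_cases hq : q = a
        · subst hq
          simp [haD, ha]
        · simp [hq]
      rw [this]
      exact ih.mul (Pos.pow hQ ha k) fun q => by split_ifs <;> positivity

theorem small_coef (hQ : IsMF Q) (A : Finset Q) (ε δ : ℝ) (hε : 0 < ε) (hδ : 0 < δ) :
    ∃ (ι : Type) (_ : Fintype ι) (_ : DecidableEq ι) (φ : Q → unitaryGroup ι ℂ) (ξ : ι → ℂ),
      φ 1 = 1 ∧ (∀ a ∈ A, ∀ b ∈ A, ds (φ (a * b)) (φ a * φ b) ≤ ε) ∧ nsq ξ = 1 ∧
        ∀ a ∈ A, a ≠ 1 → ‖cf (φ a) ξ‖ ≤ δ := by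
  classical
  obtain ⟨k, hk⟩ := exists_pow_lt_of_lt_one hδ (by norm_num : (19 / 20 : ℝ) < 1)
  obtain ⟨ι, i1, i2, φ, ξ, h1, h2, h3, h4⟩ := Pos.finset hQ k A A ε hε
  refine ⟨ι, i1, i2, φ, ξ, h1, h2, h3, fun a ha ha1 => ?_⟩
  have := h4 a ha
  beta_reduce at this
  rw [if_pos ⟨ha, ha1⟩] at this
  exact this.trans hk.le

end

end Pool.Agent.Helper98.MFH
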