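import Pool.Agent.Helper98.MFH.S2
import Pool.Agent.Helper3.CK.Wr

/-!
# MFH: permutational wreath products of free groups with MF groups are MF
-/

set_option autoImplicit false
set_option linter.unusedSectionVars false

namespace Pool.Agent.Helper98.MFH

open Matrix Finset
open Pool.Agent.Helper87.WS (rf_freeGroup)
open Pool.Agent.Helper3.CK (Fs fsAct fsAct_apply PWr)

noncomputable section

theorem mf_wreath {Q : Type} [Group Q] (K : Subgroup Q) (hQ : IsMF Q) (α : Type) :
    IsMF (PWr (FreeGroup α) K) := by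
  classical
  refine mf_semidirect' (fsAct (Q ⧸ K) (FreeGroup α) Q) hQ fun A B ε hε n hn => ?_
  obtain ⟨c0, hc0⟩ : ∃ c0, (n : Q ⧸ K → FreeGroup α) c0 ≠ 1 := by
    by_contra hc
    push Not at hc
    exact hn (Subtype.ext (funext hc))
  obtain ⟨H, iH, fH, f, hf⟩ := rf_freeGroup α _ hc0
  have : Fintype H := Fintype.ofFinite H
  let G : H →* unitaryGroup H ℂ := PM.comp (MulAction.toPermHom H H)
  have hfin : ∀ m : Fs (Q ⧸ K) (FreeGroup α),
      (Function.mulSupport (m : Q ⧸ K → FreeGroup α)).Finite := fun m => m.2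
  set CC : Finset (Q ⧸ K) := A.biUnion fun m => (hfin m).toFinset with hCC
  set C1 : Finset α := (((n : Q ⧸ K → FreeGroup α) c0).toWord.map Prod.fst).toFinset with hC1
  set M : ℕ := (A ×ˢ CC).sup fun x => ((x.1 : Q ⧸ K → FreeGroup α) x.2).toWord.length with hM
  set ε' : ℝ := ε / ((M + 1) * ((1 : ℕ) + 1)) with hε'
  have hε0 : 0 < ε' := by positivity
  choose N v hv1 hv2 hv3 using fun c : α => chn_perm (MulAction.toPermHom H H (f (FreeGroup.of c)))
    ε' hε0
  let rep : Q ⧸ K → Q := Quotient.out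
  have hrep : ∀ c, (QuotientGroup.mk (rep c) : Q ⧸ K) = c := fun c => Quotient.out_eq c
  let kk : Q × (Q ⧸ K) → Q := fun x => (rep (x.1 • x.2))⁻¹ * (x.1 * rep x.2)
  have hkk : ∀ x, kk x ∈ K := by
    intro x
    change (rep (x.1 • x.2))⁻¹ * (x.1 * rep x.2) ∈ K
    rw [← QuotientGroup.eq, hrep, ← smul_eq_mul, ← MulAction.Quotient.smul_mk, hrep]
  obtain ⟨h0, hh1, -, hh4, hh3⟩ := heightsQ K ((B ×ˢ CC).image kk) (by
      intro s hs
      obtain ⟨x, _, rfl⟩ := mem_image.1 hs
      exact hkk x) (∅ : Finset Unit) (fun _ => (rep c0)⁻¹) (by simp) (C1.sup N)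
  let h : Q → ℕ := h0 ()
  -- the point of the base which is seen at `y`
  let γ : Q → Q ⧸ K := fun y => QuotientGroup.mk (y * rep c0)
  have hγ : ∀ q y, γ (q⁻¹ * y) = q⁻¹ • γ y := by
    intro q y
    change (QuotientGroup.mk (q⁻¹ * y * rep c0) : Q ⧸ K) = q⁻¹ • QuotientGroup.mk (y * rep c0)
    rw [MulAction.Quotient.smul_mk, smul_eq_mul, mul_assoc]
  let V : ℕ → FreeGroup α →* unitaryGroup H ℂ := fun i => FreeGroup.lift fun c => v c i
  have hV0 : V 0 = 1 := by
    apply FreeGroup.ext_hom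
    intro c
    simp [V, hv1]
  let F : Fs (Q ⧸ K) (FreeGroup α) →* (Q → unitaryGroup H ℂ) :=
    { toFun := fun m y => V (h ((rep (γ y))⁻¹ * y)) ((m : Q ⧸ K → FreeGroup α) (γ y))
      map_one' := by
        funext y
        exact map_one _
      map_mul' := fun a b => by
        funext y
        exact map_mul _ _ _ }
  have hF : ∀ m y, F m y = V (h ((rep (γ y))⁻¹ * y)) ((m : Q ⧸ K → FreeGroup α) (γ y)) :=
    fun _ _ => rfl
  refine ⟨H, inferInstance, inferInstance, F, ?_, ?_, ?_⟩
  · intro m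
    have hs : (⋃ c ∈ Function.mulSupport (m : Q ⧸ K → FreeGroup α),
        (fun y => rep c * y) '' {y | h y ≠ 0}).Finite :=
      (hfin m).biUnion fun c _ => (hh4 ()).image _
    refine hs.subset fun y hy => ?_
    rw [Set.mem_iUnion₂]
    refine ⟨γ y, ?_, (rep (γ y))⁻¹ * y, ?_, mul_inv_cancel_left _ _⟩
    · intro h1
      apply hy
      rw [hF, h1, map_one]
    · intro h1
      apply hy
      rw [hF, h1, hV0]
      rfl
  · intro q hq m hm y
    rw [hF, hF, hγ]
    set c : Q ⧸ K := q⁻¹ • γ y with hc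
    have hqc : γ y = q • c := by rw [hc, smul_inv_smul]
    rw [fsAct_apply, ← hc]
    by_cases hm1 : (m : Q ⧸ K → FreeGroup α) c = 1
    · rw [hm1, map_one, map_one, ds_self]
      exact hε.le
    · have hcC : c ∈ CC := by
        rw [hCC, mem_biUnion]
        exact ⟨m, hm, (hfin m).mem_toFinset.2 hm1⟩
      have h5 := hh3 () (kk (q, c)) (mem_image_of_mem _ (mem_product.2 ⟨hq, hcC⟩))
        ((rep (q • c))⁻¹ * y)
      have h6 : (kk (q, c))⁻¹ * ((rep (q • c))⁻¹ * y) = (rep c)⁻¹ * (q⁻¹ * y) := by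
        simp only [kk]
        group
      rw [h6] at h5
      rw [hqc]
      refine (ds_lift _ _ ((1 : ℕ) * ε') _ fun x _ => ?_).trans ?_
      · rw [Nat.cast_one, one_mul]
        exact chain_near (v x.1) hε0.le (hv3 x.1) h5.1 h5.2
      · have h9 : ((m : Q ⧸ K → FreeGroup α) c).toWord.length ≤ M := by
          rw [hM]
          exact le_sup (f := fun x : Fs (Q ⧸ K) (FreeGroup α) × (Q ⧸ K) =>
            ((x.1 : Q ⧸ K → FreeGroup α) x.2).toWord.length) (b := (m, c))
            (mem_product.2 ⟨hm, hcC⟩)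
        exact arith_eps _ M 1 ε hε h9
  · have hγ1 : γ 1 = c0 := by
      change (QuotientGroup.mk (1 * rep c0) : Q ⧸ K) = c0
      rw [one_mul, hrep]
    rw [hF, hγ1, mul_one]
    have h7 : h (rep c0)⁻¹ = C1.sup N := hh1 ()
    rw [h7]
    set w := (n : Q ⧸ K → FreeGroup α) c0 with hw
    have h5 : ds (FreeGroup.lift (fun c => G (f (FreeGroup.of c))) w) (V (C1.sup N) w) ≤
        w.toWord.length * 0 := by
      refine ds_lift _ _ 0 w fun x hx => ?_
      have hxc : x.1 ∈ C1 := by
        rw [hC1]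
        exact List.mem_toFinset.2 (List.mem_map.2 ⟨x, hx, rfl⟩)
      have : v x.1 (C1.sup N) = G (f (FreeGroup.of x.1)) := hv2 _ _ (le_sup hxc)
      rw [this, ds_self]
    have h6 : FreeGroup.lift (fun c => G (f (FreeGroup.of c))) w = G (f w) := by
      have : FreeGroup.lift (fun c => G (f (FreeGroup.of c))) = G.comp f := by
        apply FreeGroup.ext_hom
        intro c
        simp
      rw [this]
      rfl
    have h7 : 1 ≤ ds (G (f w)) 1 := by
      refine pm_sub_one (MulAction.toPermHom H H (f w)) 1 ?_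
      change f w * 1 ≠ 1
      rwa [mul_one]
    have h8 := ds_tri (G (f w)) (V (C1.sup N) w) 1
    rw [h6, mul_zero] at h5
    linarith

end

end Pool.Agent.Helper98.MFH
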